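import Pool.Agent.P.MP_7ebcb6_ag.Spec

/-! Algebra of binary quartics. -/

open scoped Polynomial

namespace Pool.Agent.P.MP_7ebcb6_ag

/-- The invariant `I` of the quartic with coefficients `e0, …, e4`. -/
def iI {R : Type*} [CommRing R] (e0 e1 e2 e3 e4 : R) : R := 12 * e0 * e4 - 3 * e1 * e3 + e2 ^ 2

/-- The invariant `J` of the quartic with coefficients `e0, …, e4`. -/
def iJ {R : Type*} [CommRing R] (e0 e1 e2 e3 e4 : R) : R :=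
  72 * e0 * e2 * e4 + 9 * e1 * e2 * e3 - 27 * e0 * e3 ^ 2 - 27 * e1 ^ 2 * e4 - 2 * e2 ^ 3

lemma iI_prod {R : Type*} [CommRing R] (a1 b1 a2 b2 a3 b3 a4 b4 : R) :
    iI (b1 * (b2 * (b3 * b4))) (a1 * (b2 * (b3 * b4)) + b1 * (a2 * (b3 * b4) + b2 * (a3 * b4 + b3 * a4)))
      (a1 * (a2 * (b3 * b4) + b2 * (a3 * b4 + b3 * a4)) + b1 * (a2 * (a3 * b4 + b3 * a4) + b2 * (a3 * a4)))
      (a1 * (a2 * (a3 * b4 + b3 * a4) + b2 * (a3 * a4)) + b1 * (a2 * (a3 * a4))) (a1 * (a2 * (a3 * a4)))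
    = ((a1 * b2 - a2 * b1) * (a3 * b4 - a4 * b3)) ^ 2
      + ((a1 * b2 - a2 * b1) * (a3 * b4 - a4 * b3)) * ((a1 * b4 - a4 * b1) * (a2 * b3 - a3 * b2))
      + ((a1 * b4 - a4 * b1) * (a2 * b3 - a3 * b2)) ^ 2 := by
  unfold iI; ring

lemma iJ_prod {R : Type*} [CommRing R] (a1 b1 a2 b2 a3 b3 a4 b4 : R) :
    iJ (b1 * (b2 * (b3 * b4))) (a1 * (b2 * (b3 * b4)) + b1 * (a2 * (b3 * b4) + b2 * (a3 * b4 + b3 * a4)))
      (a1 * (a2 * (b3 * b4) + b2 * (a3 * b4 + b3 * a4)) + b1 * (a2 * (a3 * b4 + b3 * a4) + b2 * (a3 * a4)))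
      (a1 * (a2 * (a3 * b4 + b3 * a4) + b2 * (a3 * a4)) + b1 * (a2 * (a3 * a4))) (a1 * (a2 * (a3 * a4)))
    = ((a1 * b2 - a2 * b1) * (a3 * b4 - a4 * b3) - (a1 * b4 - a4 * b1) * (a2 * b3 - a3 * b2))
      * (2 * ((a1 * b2 - a2 * b1) * (a3 * b4 - a4 * b3)) + (a1 * b4 - a4 * b1) * (a2 * b3 - a3 * b2))
      * ((a1 * b2 - a2 * b1) * (a3 * b4 - a4 * b3)
        + 2 * ((a1 * b4 - a4 * b1) * (a2 * b3 - a3 * b2))) := by
  unfold iJ; ring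

lemma disc_congr {R : Type*} [CommRing R] {e0 e1 e2 e3 e4 d0 d1 d2 d3 d4 : R} (h0 : e0 = d0)
    (h1 : e1 = d1) (h2 : e2 = d2) (h3 : e3 = d3) (h4 : e4 = d4) :
    4 * iI e0 e1 e2 e3 e4 ^ 3 - iJ e0 e1 e2 e3 e4 ^ 2
      = 4 * iI d0 d1 d2 d3 d4 ^ 3 - iJ d0 d1 d2 d3 d4 ^ 2 := by
  rw [h0, h1, h2, h3, h4]

section closed

variable {k : Type*} [Field k] [IsAlgClosed k]

lemma exists_sqrt (a : k) : ∃ r : k, r ^ 2 = a := IsAlgClosed.exists_pow_nat_eq a two_pos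

lemma exists_root4 (e0 e1 e2 e3 e4 : k) (h : e1 ≠ 0 ∨ e2 ≠ 0 ∨ e3 ≠ 0 ∨ e4 ≠ 0) :
    ∃ r : k, e0 + e1 * r + e2 * r ^ 2 + e3 * r ^ 3 + e4 * r ^ 4 = 0 := by
  open Polynomial in
  let p : k[X] := C e0 + C e1 * X + C e2 * X ^ 2 + C e3 * X ^ 3 + C e4 * X ^ 4
  have hp : p.degree ≠ 0 := by
    intro h0
    have h1 : ∀ n, 0 < n → p.coeff n = 0 := fun n hn =>
      Polynomial.coeff_eq_zero_of_degree_lt (by rw [h0]; exact_mod_cast hn)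
    have c1 := h1 1 one_pos
    have c2 := h1 2 two_pos
    have c3 := h1 3 three_pos
    have c4 := h1 4 four_pos
    simp [p, Polynomial.coeff_C, Polynomial.coeff_X_pow] at c1 c2 c3 c4
    tauto
  obtain ⟨r, hr⟩ := IsAlgClosed.exists_root p hp
  exact ⟨r, by simpa [p] using hr⟩

lemma exists_factor4 (e0 e1 e2 e3 e4 : k) : ∃ α β d0 d1 d2 d3 : k, e0 = β * d0 ∧
    e1 = α * d0 + β * d1 ∧ e2 = α * d1 + β * d2 ∧ e3 = α * d2 + β * d3 ∧ e4 = α * d3 := by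
  by_cases h : e4 = 0
  · exact ⟨0, 1, e0, e1, e2, e3, by ring, by ring, by ring, by ring, by rw [h]; ring⟩
  · obtain ⟨r, hr⟩ := exists_root4 e0 e1 e2 e3 e4 (by tauto)
    exact ⟨1, -r, e1 + e2 * r + e3 * r ^ 2 + e4 * r ^ 3, e2 + e3 * r + e4 * r ^ 2, e3 + e4 * r, e4,
      by linear_combination hr, by ring, by ring, by ring, by ring⟩

lemma exists_factor3 (e0 e1 e2 e3 : k) : ∃ α β d0 d1 d2 : k, e0 = β * d0 ∧
    e1 = α * d0 + β * d1 ∧ e2 = α * d1 + β * d2 ∧ e3 = α * d2 := by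
  by_cases h : e3 = 0
  · exact ⟨0, 1, e0, e1, e2, by ring, by ring, by ring, by rw [h]; ring⟩
  · obtain ⟨r, hr⟩ := exists_root4 e0 e1 e2 e3 0 (by tauto)
    exact ⟨1, -r, e1 + e2 * r + e3 * r ^ 2, e2 + e3 * r, e3,
      by linear_combination hr, by ring, by ring, by ring⟩

lemma exists_factor2 (e0 e1 e2 : k) : ∃ α β d0 d1 : k, e0 = β * d0 ∧
    e1 = α * d0 + β * d1 ∧ e2 = α * d1 := by
  by_cases h : e2 = 0
  · exact ⟨0, 1, e0, e1, by ring, by ring, by rw [h]; ring⟩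
  · obtain ⟨r, hr⟩ := exists_root4 e0 e1 e2 0 0 (by tauto)
    exact ⟨1, -r, e1 + e2 * r, e2, by linear_combination hr, by ring, by ring⟩

lemma exists_vieta2 (p q : k) : ∃ r s : k, r + s = p ∧ r * s = q := by
  obtain ⟨r, hr⟩ := exists_root4 q (-p) 1 0 0 (by simp)
  exact ⟨r, p - r, by ring, by linear_combination -hr⟩

lemma exists_vieta4 (p e g : k) : ∃ r1 r2 r3 r4 : k, r1 + r2 + r3 + r4 = 0 ∧
    r1 * r2 + r1 * r3 + r1 * r4 + r2 * r3 + r2 * r4 + r3 * r4 = p ∧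
    r1 * r2 * r3 + r1 * r2 * r4 + r1 * r3 * r4 + r2 * r3 * r4 = -e ∧ r1 * r2 * r3 * r4 = g := by
  obtain ⟨r1, h1⟩ := exists_root4 g e p 0 1 (by simp)
  obtain ⟨r2, h2⟩ := exists_root4 (e + p * r1 + r1 ^ 3) (p + r1 ^ 2) r1 1 0 (by simp)
  obtain ⟨r3, r4, h3, h4⟩ := exists_vieta2 (-(r1 + r2)) (p + r1 ^ 2 + r1 * r2 + r2 ^ 2)
  refine ⟨r1, r2, r3, r4, by linear_combination h3, by linear_combination (r1 + r2) * h3 + h4,
    by linear_combination r1 * r2 * h3 + (r1 + r2) * h4 + h2, ?_⟩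
  linear_combination r1 * r2 * h4 + r1 * h2 - h1

omit [IsAlgClosed k] in
lemma double_of_prop (α1 β1 α2 β2 d0 d1 d2 : k) (h : α1 * β2 - α2 * β1 = 0) :
    ∃ α β γ0 γ1 γ2 : k, β1 * β2 * d0 = β ^ 2 * γ0 ∧
      (α1 * β2 + α2 * β1) * d0 + β1 * β2 * d1 = 2 * α * β * γ0 + β ^ 2 * γ1 ∧
      α1 * α2 * d0 + (α1 * β2 + α2 * β1) * d1 + β1 * β2 * d2
        = α ^ 2 * γ0 + 2 * α * β * γ1 + β ^ 2 * γ2 ∧
      α1 * α2 * d1 + (α1 * β2 + α2 * β1) * d2 = α ^ 2 * γ1 + 2 * α * β * γ2 ∧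
      α1 * α2 * d2 = α ^ 2 * γ2 := by
  by_cases ha : α1 = 0
  · by_cases hb : β1 = 0
    · subst ha hb
      exact ⟨0, 0, 0, 0, 0, by ring, by ring, by ring, by ring, by ring⟩
    · subst ha
      have h2 : α2 = 0 := by
        have : α2 * β1 = 0 := by linear_combination -h
        exact (mul_eq_zero.mp this).resolve_right hb
      subst h2
      exact ⟨0, 1, β1 * β2 * d0, β1 * β2 * d1, β1 * β2 * d2, by ring, by ring, by ring, by ring,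
        by ring⟩
  · have h2 : β2 = α2 * β1 / α1 := by field_simp; linear_combination h
    subst h2
    refine ⟨α1, β1, α2 / α1 * d0, α2 / α1 * d1, α2 / α1 * d2, ?_, ?_, ?_, ?_, ?_⟩ <;>
      field_simp <;> ring

/-- A binary quartic with vanishing discriminant has a square linear factor. -/
lemma exists_double_factor [CharZero k] (e0 e1 e2 e3 e4 : k)
    (h : 4 * iI e0 e1 e2 e3 e4 ^ 3 - iJ e0 e1 e2 e3 e4 ^ 2 = 0) :
    ∃ α β γ0 γ1 γ2 : k, e0 = β ^ 2 * γ0 ∧ e1 = 2 * α * β * γ0 + β ^ 2 * γ1 ∧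
      e2 = α ^ 2 * γ0 + 2 * α * β * γ1 + β ^ 2 * γ2 ∧ e3 = α ^ 2 * γ1 + 2 * α * β * γ2 ∧
      e4 = α ^ 2 * γ2 := by
  obtain ⟨a1, b1, d0, d1, d2, d3, rfl, rfl, rfl, rfl, rfl⟩ := exists_factor4 e0 e1 e2 e3 e4
  obtain ⟨a2, b2, c0, c1, c2, rfl, rfl, rfl, rfl⟩ := exists_factor3 d0 d1 d2 d3
  obtain ⟨a3, b3, b4, a4, rfl, rfl, rfl⟩ := exists_factor2 c0 c1 c2
  have key : 27 * ((a1 * b2 - a2 * b1) * (a1 * b3 - a3 * b1) * (a1 * b4 - a4 * b1)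
      * (a2 * b3 - a3 * b2) * (a2 * b4 - a4 * b2) * (a3 * b4 - a4 * b3)) ^ 2 = 0 := by
    rw [iI_prod, iJ_prod] at h
    have hQ : (a1 * b3 - a3 * b1) * (a2 * b4 - a4 * b2) = (a1 * b2 - a2 * b1) * (a3 * b4 - a4 * b3)
        + (a1 * b4 - a4 * b1) * (a2 * b3 - a3 * b2) := by ring
    generalize a1 * b2 - a2 * b1 = p12 at *
    generalize a1 * b3 - a3 * b1 = p13 at *
    generalize a1 * b4 - a4 * b1 = p14 at *
    generalize a2 * b3 - a3 * b2 = p23 at *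
    generalize a2 * b4 - a4 * b2 = p24 at *
    generalize a3 * b4 - a4 * b3 = p34 at *
    have : 27 * (p12 * p13 * p14 * p23 * p24 * p34) ^ 2
        = 27 * ((p12 * p34) * (p14 * p23) * (p13 * p24)) ^ 2 := by ring
    rw [this, hQ, ← h]; ring
  have key2 := pow_eq_zero_iff two_ne_zero |>.mp
    ((mul_eq_zero.mp key).resolve_left (by norm_num))
  simp only [mul_eq_zero] at key2
  rcases key2 with ((((h | h) | h) | h) | h) | h
  · obtain ⟨α, β, γ0, γ1, γ2, h0, h1, h2, h3, h4⟩ :=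
      double_of_prop a1 b1 a2 b2 (b3 * b4) (a3 * b4 + a4 * b3) (a3 * a4) h
    exact ⟨α, β, γ0, γ1, γ2, by linear_combination h0, by linear_combination h1,
      by linear_combination h2, by linear_combination h3, by linear_combination h4⟩
  · obtain ⟨α, β, γ0, γ1, γ2, h0, h1, h2, h3, h4⟩ :=
      double_of_prop a1 b1 a3 b3 (b2 * b4) (a2 * b4 + a4 * b2) (a2 * a4) h
    exact ⟨α, β, γ0, γ1, γ2, by linear_combination h0, by linear_combination h1,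
      by linear_combination h2, by linear_combination h3, by linear_combination h4⟩
  · obtain ⟨α, β, γ0, γ1, γ2, h0, h1, h2, h3, h4⟩ :=
      double_of_prop a1 b1 a4 b4 (b2 * b3) (a2 * b3 + a3 * b2) (a2 * a3) h
    exact ⟨α, β, γ0, γ1, γ2, by linear_combination h0, by linear_combination h1,
      by linear_combination h2, by linear_combination h3, by linear_combination h4⟩
  · obtain ⟨α, β, γ0, γ1, γ2, h0, h1, h2, h3, h4⟩ :=
      double_of_prop a2 b2 a3 b3 (b1 * b4) (a1 * b4 + a4 * b1) (a1 * a4) h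
    exact ⟨α, β, γ0, γ1, γ2, by linear_combination h0, by linear_combination h1,
      by linear_combination h2, by linear_combination h3, by linear_combination h4⟩
  · obtain ⟨α, β, γ0, γ1, γ2, h0, h1, h2, h3, h4⟩ :=
      double_of_prop a2 b2 a4 b4 (b1 * b3) (a1 * b3 + a3 * b1) (a1 * a3) h
    exact ⟨α, β, γ0, γ1, γ2, by linear_combination h0, by linear_combination h1,
      by linear_combination h2, by linear_combination h3, by linear_combination h4⟩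
  · obtain ⟨α, β, γ0, γ1, γ2, h0, h1, h2, h3, h4⟩ :=
      double_of_prop a3 b3 a4 b4 (b1 * b2) (a1 * b2 + a2 * b1) (a1 * a2) h
    exact ⟨α, β, γ0, γ1, γ2, by linear_combination h0, by linear_combination h1,
      by linear_combination h2, by linear_combination h3, by linear_combination h4⟩

lemma exists_root_of_reverse (P Q : k[X]) {n : ℕ} (hn : n ≠ 0)
    (h : ∀ ν : k, ν ≠ 0 → Q.eval ν = ν ^ n * P.eval ν⁻¹) (hQ : Q.eval 0 ≠ 0) :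
    ∃ μ, P.eval μ = 0 := by
  by_cases hd : P.degree = 0
  · exfalso
    apply hQ
    rw [Polynomial.eq_C_of_degree_eq_zero hd] at h
    have : Q = Polynomial.X ^ n * Polynomial.C (P.coeff 0) := by
      apply Polynomial.eq_of_infinite_eval_eq
      refine Set.Infinite.mono (s := {0}ᶜ) (fun ν hν => ?_)
        (Set.finite_singleton (0 : k)).infinite_compl
      have := h ν hν
      rw [Polynomial.eval_C] at this
      simp only [Set.mem_ofPred_eq, Polynomial.eval_mul, Polynomial.eval_pow, Polynomial.eval_X,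
        Polynomial.eval_C]
      exact this
    rw [this]; simp [hn]
  · exact IsAlgClosed.exists_root P hd

lemma exists_sq_of_disc [CharZero k] {γ0 γ1 γ2 : k} (h : γ1 ^ 2 - 4 * γ0 * γ2 = 0) :
    ∃ u w : k, γ0 = u ^ 2 ∧ γ1 = 2 * u * w ∧ γ2 = w ^ 2 := by
  obtain ⟨u, rfl⟩ := exists_sqrt γ0
  obtain ⟨w, rfl⟩ := exists_sqrt γ2
  have : (γ1 - 2 * u * w) * (γ1 + 2 * u * w) = 0 := by linear_combination h
  rcases mul_eq_zero.mp this with h | h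
  · exact ⟨u, w, rfl, by linear_combination h, rfl⟩
  · exact ⟨u, -w, rfl, by linear_combination h, by ring⟩

end closed

section line

variable {R : Type*} [CommRing R]

/-- Coefficients of the plane quartic restricted to the line `q = n0 + n1 τ`. -/
def le0 (x a1 B0 n0 : R) : R := 3 * x * n0 ^ 2 + a1 * n0 + B0
/-- Coefficients of the plane quartic restricted to the line `q = n0 + n1 τ`. -/
def le1 (x a1 a2 B1 n0 n1 : R) : R := n0 ^ 3 + 6 * x * n0 * n1 + a1 * n1 + a2 * n0 + B1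
/-- Coefficients of the plane quartic restricted to the line `q = n0 + n1 τ`. -/
def le2 (x a2 a3 B2 n0 n1 : R) : R := 3 * n0 ^ 2 * n1 + 3 * x * n1 ^ 2 + a2 * n1 + a3 * n0 + B2
/-- Coefficients of the plane quartic restricted to the line `q = n0 + n1 τ`. -/
def le3 (a3 a4 B3 n0 n1 : R) : R := 3 * n0 * n1 ^ 2 + a3 * n1 + a4 * n0 + B3
/-- Coefficients of the plane quartic restricted to the line `q = n0 + n1 τ`. -/
def le4 (a4 B4 n1 : R) : R := n1 ^ 3 + a4 * n1 + B4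

/-- The Weierstrass coefficient `a` near the node. -/
def wa (x a1 a2 a3 a4 τ : R) : R := -3 * x ^ 2 + a1 * τ + a2 * τ ^ 2 + a3 * τ ^ 3 + a4 * τ ^ 4
/-- The Weierstrass coefficient `b` near the node. -/
def wb (x a1 a2 a3 a4 B0 B1 B2 B3 B4 τ : R) : R :=
  2 * x ^ 3 - x * (a1 * τ + a2 * τ ^ 2 + a3 * τ ^ 3 + a4 * τ ^ 4)
    + τ ^ 2 * (B0 + B1 * τ + B2 * τ ^ 2 + B3 * τ ^ 3 + B4 * τ ^ 4)

lemma cubic_on_line (x a1 a2 a3 a4 B0 B1 B2 B3 B4 n0 n1 τ : R) :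
    (x + τ * (n0 + n1 * τ)) ^ 3 + wa x a1 a2 a3 a4 τ * (x + τ * (n0 + n1 * τ))
      + wb x a1 a2 a3 a4 B0 B1 B2 B3 B4 τ = τ ^ 2 * (le0 x a1 B0 n0 + le1 x a1 a2 B1 n0 n1 * τ
        + le2 x a2 a3 B2 n0 n1 * τ ^ 2 + le3 a3 a4 B3 n0 n1 * τ ^ 3 + le4 a4 B4 n1 * τ ^ 4) := by
  unfold wa wb le0 le1 le2 le3 le4; ring

/-- The discriminant of the restriction to the line. -/
def lD (x a1 a2 a3 a4 B0 B1 B2 B3 B4 n0 n1 : R) : R :=
  4 * iI (le0 x a1 B0 n0) (le1 x a1 a2 B1 n0 n1) (le2 x a2 a3 B2 n0 n1) (le3 a3 a4 B3 n0 n1)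
      (le4 a4 B4 n1) ^ 3
    - iJ (le0 x a1 B0 n0) (le1 x a1 a2 B1 n0 n1) (le2 x a2 a3 B2 n0 n1) (le3 a3 a4 B3 n0 n1)
      (le4 a4 B4 n1) ^ 2

/-- The same quartic expanded at `τ = s` along the line of slope `μ / ν`, rescaled. -/
def rD (x a1 a2 a3 a4 B0 B1 B2 B3 B4 s q μ ν : R) : R :=
  let α0 := a1 + a2 * s + a3 * s ^ 2 + a4 * s ^ 3
  let α1 := a2 + 2 * a3 * s + 3 * a4 * s ^ 2
  let α2 := a3 + 3 * a4 * s
  let e0 := s * q ^ 3 + 3 * x * q ^ 2 + α0 * q + (B0 + B1 * s + B2 * s ^ 2 + B3 * s ^ 3 + B4 * s ^ 4)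
  let e1 := (3 * s * q ^ 2 + 6 * x * q + α0) * μ
    + (q ^ 3 + α1 * q + (B1 + 2 * B2 * s + 3 * B3 * s ^ 2 + 4 * B4 * s ^ 3)) * ν
  let e2 := (3 * s * q + 3 * x) * μ ^ 2 + (3 * q ^ 2 + α1) * μ * ν
    + (α2 * q + (B2 + 3 * B3 * s + 6 * B4 * s ^ 2)) * ν ^ 2
  let e3 := s * μ ^ 3 + 3 * q * μ ^ 2 * ν + α2 * μ * ν ^ 2 + (a4 * q + (B3 + 4 * B4 * s)) * ν ^ 3
  let e4 := μ ^ 3 * ν + a4 * μ * ν ^ 3 + B4 * ν ^ 4
  4 * iI e0 e1 e2 e3 e4 ^ 3 - iJ e0 e1 e2 e3 e4 ^ 2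

lemma iI_shift (e0 e1 e2 e3 e4 s : R) :
    iI (e0 + e1 * s + e2 * s ^ 2 + e3 * s ^ 3 + e4 * s ^ 4)
      (e1 + 2 * e2 * s + 3 * e3 * s ^ 2 + 4 * e4 * s ^ 3) (e2 + 3 * e3 * s + 6 * e4 * s ^ 2)
      (e3 + 4 * e4 * s) e4 = iI e0 e1 e2 e3 e4 := by unfold iI; ring

lemma iJ_shift (e0 e1 e2 e3 e4 s : R) :
    iJ (e0 + e1 * s + e2 * s ^ 2 + e3 * s ^ 3 + e4 * s ^ 4)
      (e1 + 2 * e2 * s + 3 * e3 * s ^ 2 + 4 * e4 * s ^ 3) (e2 + 3 * e3 * s + 6 * e4 * s ^ 2)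
      (e3 + 4 * e4 * s) e4 = iJ e0 e1 e2 e3 e4 := by unfold iJ; ring

lemma iI_scale (e0 e1 e2 e3 e4 s : R) :
    iI e0 (s * e1) (s ^ 2 * e2) (s ^ 3 * e3) (s ^ 4 * e4) = s ^ 4 * iI e0 e1 e2 e3 e4 := by
  unfold iI; ring

lemma iJ_scale (e0 e1 e2 e3 e4 s : R) :
    iJ e0 (s * e1) (s ^ 2 * e2) (s ^ 3 * e3) (s ^ 4 * e4) = s ^ 6 * iJ e0 e1 e2 e3 e4 := by
  unfold iJ; ring

lemma rD_one (x a1 a2 a3 a4 B0 B1 B2 B3 B4 s q μ : R) :
    rD x a1 a2 a3 a4 B0 B1 B2 B3 B4 s q μ 1 = lD x a1 a2 a3 a4 B0 B1 B2 B3 B4 (q - μ * s) μ := by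
  unfold lD
  rw [← iI_shift _ _ _ _ _ s, ← iJ_shift _ _ _ _ _ s]
  unfold rD le0 le1 le2 le3 le4
  dsimp only
  refine disc_congr ?_ ?_ ?_ ?_ ?_ <;> ring

lemma rD_smul (x a1 a2 a3 a4 B0 B1 B2 B3 B4 s q μ ν c : R) :
    rD x a1 a2 a3 a4 B0 B1 B2 B3 B4 s q (c * μ) (c * ν)
      = c ^ 12 * rD x a1 a2 a3 a4 B0 B1 B2 B3 B4 s q μ ν := by
  have e : ∀ I J : R, c ^ 12 * (4 * I ^ 3 - J ^ 2) = 4 * (c ^ 4 * I) ^ 3 - (c ^ 6 * J) ^ 2 := by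
    intro I J; ring
  unfold rD
  dsimp only
  rw [e, ← iI_scale, ← iJ_scale]
  refine disc_congr ?_ ?_ ?_ ?_ ?_ <;> ring

lemma rD_zero (x a1 a2 a3 a4 B0 B1 B2 B3 B4 s q : R) :
    rD x a1 a2 a3 a4 B0 B1 B2 B3 B4 s q 1 0 = -27 * (4 * wa x a1 a2 a3 a4 s ^ 3
      + 27 * wb x a1 a2 a3 a4 B0 B1 B2 B3 B4 s ^ 2) := by
  have e : ∀ α0 β0 : R, 4 * iI (s * q ^ 3 + 3 * x * q ^ 2 + α0 * q + β0)
      (3 * s * q ^ 2 + 6 * x * q + α0) (3 * s * q + 3 * x) s 0 ^ 3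
      - iJ (s * q ^ 3 + 3 * x * q ^ 2 + α0 * q + β0)
      (3 * s * q ^ 2 + 6 * x * q + α0) (3 * s * q + 3 * x) s 0 ^ 2
      = -27 * (4 * (-3 * x ^ 2 + α0 * s) ^ 3 + 27 * (2 * x ^ 3 - x * (α0 * s) + s ^ 2 * β0) ^ 2) := by
    intro α0 β0; unfold iI iJ; ring
  have e1 : wa x a1 a2 a3 a4 s = -3 * x ^ 2 + (a1 + a2 * s + a3 * s ^ 2 + a4 * s ^ 3) * s := by
    unfold wa; ring
  have e2 : wb x a1 a2 a3 a4 B0 B1 B2 B3 B4 s = 2 * x ^ 3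
      - x * ((a1 + a2 * s + a3 * s ^ 2 + a4 * s ^ 3) * s)
      + s ^ 2 * (B0 + B1 * s + B2 * s ^ 2 + B3 * s ^ 3 + B4 * s ^ 4) := by
    unfold wb; ring
  rw [e1, e2, ← e]
  unfold rD
  dsimp only
  refine disc_congr ?_ ?_ ?_ ?_ ?_ <;> ring

lemma map_rD {S : Type*} [CommRing S] (φ : R →+* S) (x a1 a2 a3 a4 B0 B1 B2 B3 B4 s q μ ν : R) :
    φ (rD x a1 a2 a3 a4 B0 B1 B2 B3 B4 s q μ ν) = rD (φ x) (φ a1) (φ a2) (φ a3) (φ a4) (φ B0)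
      (φ B1) (φ B2) (φ B3) (φ B4) (φ s) (φ q) (φ μ) (φ ν) := by
  simp only [rD, iI, iJ, map_sub, map_add, map_mul, map_pow, map_ofNat]

end line

/-- Through a point on a smooth fibre there is a line tangent to the plane quartic. -/
lemma exists_tangent_line {k : Type*} [Field k] [IsAlgClosed k] [CharZero k]
    (x a1 a2 a3 a4 B0 B1 B2 B3 B4 s q : k)
    (h : 4 * wa x a1 a2 a3 a4 s ^ 3 + 27 * wb x a1 a2 a3 a4 B0 B1 B2 B3 B4 s ^ 2 ≠ 0) :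
    ∃ μ : k, lD x a1 a2 a3 a4 B0 B1 B2 B3 B4 (q - μ * s) μ = 0 := by
  open Polynomial in
  obtain ⟨μ, hμ⟩ := exists_root_of_reverse
    (rD (C x) (C a1) (C a2) (C a3) (C a4) (C B0) (C B1) (C B2) (C B3) (C B4) (C s) (C q) X 1)
    (rD (C x) (C a1) (C a2) (C a3) (C a4) (C B0) (C B1) (C B2) (C B3) (C B4) (C s) (C q) 1 X)
    (n := 12) (by norm_num) (fun ν hν => by
      rw [← coe_evalRingHom, ← coe_evalRingHom, map_rD, map_rD, ← rD_smul]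
      simp [hν]) (by
      rw [← coe_evalRingHom, map_rD]
      simp only [coe_evalRingHom, eval_C, eval_X, eval_one]
      rw [rD_zero]
      exact mul_ne_zero (by norm_num) h)
  refine ⟨μ, ?_⟩
  rw [← Polynomial.coe_evalRingHom, map_rD] at hμ
  simp only [Polynomial.coe_evalRingHom, Polynomial.eval_C, Polynomial.eval_X,
    Polynomial.eval_one] at hμ
  rwa [rD_one] at hμ

end Pool.Agent.P.MP_7ebcb6_ag
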