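import Pool.Agent.P.MP_7ebcb6_ag.Cycle
import Pool.Agent.P.MP_7ebcb6_ag.Select

/-! Every point of the closure of the image is a limit of general points along a curve. -/

open scoped LinearAlgebra.Projectivization Polynomial
open MvPolynomial

namespace Pool.Agent.P.MP_7ebcb6_ag

noncomputable section

variable {n : ℕ} {q q' : MvPolynomial (Fin 5) ℂ} {N : Fin (n + 1) → MvPolynomial (Fin 5) ℂ}

lemma aeval_eq_zero_of_mem {R : Type} [CommRing R] [Algebra ℂ R] {P : Fin 5 → R}
    (h : aeval P q = 0) (h' : aeval P q' = 0) {F : MvPolynomial (Fin 5) ℂ}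
    (hF : F ∈ Ideal.span {q, q'}) : aeval P F = 0 := by
  obtain ⟨a, b, rfl⟩ := Ideal.mem_span_pair.mp hF
  simp [h, h']

lemma aeval_N {R : Type} [CommRing R] [Algebra ℂ R] (P : Fin 5 → R)
    (F : MvPolynomial (Fin (n + 1)) ℂ) : aeval P (aeval N F) = aeval (fun i => aeval P (N i)) F :=
  comp_aeval_apply _ _ _

lemma vanish_om {P : Fin 5 → Om} (h : aeval P q = 0) (h' : aeval P q' = 0)
    (h0 : (fun i => aeval P (N i)) ≠ 0) (F : MvPolynomial (Fin (n + 1)) ℂ) (d : ℕ)
    (hF : F.IsHomogeneous d) (hZ : ∀ z ∈ imageOf q q' N, eval z.rep F = 0) :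
    aeval (fun i => aeval P (N i)) F = 0 := by
  obtain ⟨k, hk⟩ := Function.ne_iff.mp h0
  have hmem : N k * aeval N F ∈ vanishingIdeal ℂ (zeroLocus ℂ (Ideal.span {q, q'})) := by
    intro p hp
    rw [map_mul, aeval_N]
    by_cases hp0 : (fun i => eval p (N i)) = 0
    · exact mul_eq_zero_of_left (congrFun hp0 k) _
    · refine mul_eq_zero_of_right _ ?_
      have h1 := hZ _ ⟨p, hp q (Ideal.subset_span (by simp)), hp q' (Ideal.subset_span (by simp)),
        hp0, rfl⟩
      obtain ⟨a, ha⟩ := Projectivization.exists_smul_eq_mk_rep ℂ _ hp0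
      rw [← ha] at h1
      have h2 := aeval_smul_homog hF (a : ℂ) fun i => eval p (N i)
      exact (mul_eq_zero.mp (h2.symm.trans h1)).resolve_left (pow_ne_zero _ a.ne_zero)
  rw [vanishingIdeal_zeroLocus_eq_radical] at hmem
  obtain ⟨m, hm⟩ := hmem
  have := aeval_eq_zero_of_mem h h' hm
  rw [map_pow, map_mul, aeval_N] at this
  exact (mul_eq_zero.mp (pow_eq_zero_iff'.mp this).1).resolve_left hk

theorem exists_approach (hprime : (Ideal.span {q, q'}).IsPrime) (w : Fin 5 → ℕ) (hw : ∀ i, w i ≠ 0)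
    (hs : ∀ (c : ℂ) (p : Fin 5 → ℂ), eval p q = 0 → eval p q' = 0 →
      eval (fun i => c ^ w i * p i) q = 0 ∧ eval (fun i => c ^ w i * p i) q' = 0) (d : ℕ)
    (hN : ∀ (c : ℂ) (p : Fin 5 → ℂ) (j : Fin (n + 1)),
      eval (fun i => c ^ w i * p i) (N j) = c ^ d * eval p (N j))
    {H : MvPolynomial (Fin 5) ℂ} (hH : H ∉ Ideal.span {q, q'}) {ξ : ℙ ℂ (Fin (n + 1) → ℂ)}
    (hξ : ξ ∈ zariskiClosure (imageOf q q' N)) :
    ∃ (P : Fin 5 → Om) (sp : Sp), aeval P q = 0 ∧ aeval P q' = 0 ∧ aeval P H ≠ 0 ∧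
      HasVal sp (fun i => aeval P (N i)) ξ := by
  obtain ⟨k, hk⟩ := Function.ne_iff.mp ξ.rep_nonzero
  have hk' : ξ.rep k ≠ 0 := hk
  set I := Ideal.span {q, q'} with hI
  have hNk : N k ∉ I := by
    intro h
    refine hk' ?_
    have := hξ (X k) 1 (isHomogeneous_X ℂ k) (by
      rintro z ⟨p, h1, h2, h3, rfl⟩
      obtain ⟨a, ha⟩ := Projectivization.exists_smul_eq_mk_rep ℂ _ h3
      rw [← ha, eval_X]
      have : eval p (N k) = 0 := aeval_eq_zero_of_mem (R := ℂ) h1 h2 h
      simp [this])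
    simpa using this
  let A := MvPolynomial (Fin 5) ℂ ⧸ I
  let a : A := Ideal.Quotient.mk I (N k)
  have ha : a ≠ 0 := mt Ideal.Quotient.eq_zero_iff_mem.mp hNk
  have hle : Submonoid.powers a ≤ nonZeroDivisors A := powers_le_nonZeroDivisors_of_noZeroDivisors ha
  let R := Localization.Away a
  have : IsDomain R := IsLocalization.isDomain_localization hle
  let π : MvPolynomial (Fin 5) ℂ →ₐ[ℂ] R := (IsScalarTower.toAlgHom ℂ A R).comp
    (Ideal.Quotient.mkₐ ℂ I)
  have hπ : ∀ F, π F = 0 ↔ F ∈ I := fun F =>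
    ((map_eq_zero_iff _ (IsLocalization.injective R hle)).trans Ideal.Quotient.eq_zero_iff_mem)
  have hinv : π (N k) * IsLocalization.Away.invSelf a = 1 := IsLocalization.Away.mul_invSelf a
  let Φ : MvPolynomial (Fin 5 ⊕ Fin (n + 1)) ℂ →ₐ[ℂ] R := aeval (Sum.elim (fun i => π (X i))
    fun j => π (N j) * IsLocalization.Away.invSelf a)
  have hΦ : ∀ F, Φ (rename Sum.inl F) = π F := fun F =>
    DFunLike.congr_fun (show Φ.comp (rename Sum.inl) = π from by ext i; simp [Φ]) F
  have : (RingHom.ker Φ).IsPrime := RingHom.ker_isPrime _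
  have hpt : ∀ F ∈ RingHom.ker Φ, ∀ p : Fin 5 → ℂ, eval p q = 0 → eval p q' = 0 →
      eval p (N k) ≠ 0 → aeval (Sum.elim p fun j => eval p (N j) / eval p (N k)) F = 0 := by
    intro F hF p h1 h2 h3
    let e : A →ₐ[ℂ] ℂ := Ideal.Quotient.liftₐ I (aeval p) fun G hG =>
      aeval_eq_zero_of_mem (R := ℂ) h1 h2 hG
    let l : R →ₐ[ℂ] ℂ := IsLocalization.Away.liftAlgHom a (f := e) (Ne.isUnit h3)
    have hl : ∀ G, l (π G) = eval p G := fun G => IsLocalization.Away.lift_eq a (g := e.toRingHom)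
      (Ne.isUnit h3) (Ideal.Quotient.mk I G)
    have hl' : l (IsLocalization.Away.invSelf a) = (eval p (N k))⁻¹ := by
      have := congrArg l hinv
      rw [map_mul, hl, map_one] at this
      exact eq_inv_of_mul_eq_one_right this
    have e2 : l.comp Φ = aeval (Sum.elim p fun j => eval p (N j) / eval p (N k)) := by
      ext i
      rcases i with i | j <;> simp [Φ, hl, hl', div_eq_mul_inv]
    rw [← e2, AlgHom.comp_apply, (RingHom.mem_ker).mp hF, map_zero]
  have hvert : ∀ F ∈ RingHom.ker Φ, ∀ p : Fin 5 → ℂ, eval p q = 0 → eval p q' = 0 →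
      eval p (N k) ≠ 0 → aeval (Sum.elim 0 fun j => eval p (N j) / eval p (N k)) F = 0 := by
    intro F hF p h1 h2 h3
    let G : ℂ[X] := aeval (Sum.elim (fun i => Polynomial.X ^ w i * Polynomial.C (p i))
      fun j => Polynomial.C (eval p (N j) / eval p (N k))) F
    have hG : ∀ c, G.eval c = aeval (Sum.elim (fun i => c ^ w i * p i)
        fun j => eval p (N j) / eval p (N k)) F := by
      intro c
      rw [← Polynomial.coe_aeval_eq_eval, comp_aeval_apply]
      congr 2
      ext i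
      rcases i with i | j
      · simp only [Sum.elim_inl, map_mul, map_pow, Polynomial.aeval_X, Polynomial.aeval_C,
          Algebra.algebraMap_self, RingHom.id_apply]
      · simp
    have hG0 : G = 0 := by
      refine Polynomial.eq_zero_of_infinite_isRoot G ((Set.finite_singleton 0).infinite_compl.mono
        fun c hc => ?_)
      have hc' : c ^ d ≠ 0 := pow_ne_zero _ hc
      have := hpt F hF _ (hs c p h1 h2).1 (hs c p h1 h2).2 (by rw [hN]; exact mul_ne_zero hc' h3)
      simp only [hN, mul_div_mul_left _ _ hc'] at this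
      exact (hG c).trans this
    have := hG 0
    rw [hG0, Polynomial.eval_zero] at this
    simp only [zero_pow (hw _), zero_mul] at this
    exact this.symm
  have hε : ∀ F ∈ RingHom.ker Φ, aeval (Sum.elim 0 fun j => ξ.rep j / ξ.rep k) F = 0 := by
    intro F hF
    have e0 : ∀ v : Fin (n + 1) → ℂ, aeval v (aeval (Sum.elim 0 X) F : MvPolynomial _ ℂ)
        = aeval (Sum.elim 0 v) F := by
      intro v
      rw [comp_aeval_apply]
      congr 2
      ext i
      rcases i with i | j <;> simp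
    obtain ⟨D, P, hP, hv⟩ := exists_homog id k (aeval (Sum.elim 0 X) F)
    have := hξ (X k * P) _ ((isHomogeneous_X ℂ k).mul hP) (by
      rintro z ⟨p, h1, h2, h3, rfl⟩
      obtain ⟨a, ha⟩ := Projectivization.exists_smul_eq_mk_rep ℂ _ h3
      rw [← ha, map_mul, eval_X]
      by_cases h4 : eval p (N k) = 0
      · simp [h4]
      · refine mul_eq_zero_of_right _ ((aeval_smul_homog hP (a : ℂ) _).trans ?_)
        rw [hv ℂ _ h4, e0]
        simp only [id]
        rw [hvert F hF p h1 h2 h4, mul_zero, mul_zero])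
    rw [map_mul, eval_X, ← aeval_eq_eval, hv ℂ _ hk', e0] at this
    simpa [hk'] using this
  obtain ⟨P, sp, h1, h2, h3⟩ := curve_selection' (RingHom.ker Φ) _ hε
    (H := rename Sum.inl (N k * H)) (by
      rw [RingHom.mem_ker, hΦ, hπ]
      exact fun h => (hprime.mem_or_mem h).elim hNk hH)
  have hr : ∀ F : MvPolynomial (Fin 5) ℂ, aeval P (rename Sum.inl F) =
      aeval (fun i => P (Sum.inl i)) F := fun F => aeval_rename _ _ _
  rw [hr, map_mul] at h2
  refine ⟨fun i => P (Sum.inl i), sp, ?_, ?_, right_ne_zero_of_mul h2,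
    algebraMap ℂ Om (ξ.rep k) / aeval (fun i => P (Sum.inl i)) (N k), fun j => ?_⟩
  · rw [← hr]
    exact h1 _ (by rw [RingHom.mem_ker, hΦ, hπ]; exact Ideal.subset_span (by simp))
  · rw [← hr]
    exact h1 _ (by rw [RingHom.mem_ker, hΦ, hπ]; exact Ideal.subset_span (by simp))
  · have e := h1 (X (Sum.inr j) * rename Sum.inl (N k) - rename Sum.inl (N j)) (by
      rw [RingHom.mem_ker, map_sub, map_mul, hΦ, hΦ]
      simp only [Φ, aeval_X, Sum.elim_inr]
      linear_combination π (N j) * hinv)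
    rw [map_sub, map_mul, hr, hr, aeval_X, sub_eq_zero] at e
    have h4 := left_ne_zero_of_mul h2
    refine (((Tends.const (ξ.rep k)).mul (h3 (Sum.inr j))).of_eq_right ?_).of_eq_left ?_
    · simp only [Sum.elim_inr]; field_simp
    · dsimp only; rw [← e]; field_simp

end

end Pool.Agent.P.MP_7ebcb6_ag
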