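import Pool.Agent.P.MP_7ebcb6_ag.Spec

/-! Zero-cycles modulo rational equivalence and torsion, and families of points. -/

open scoped WithZero LinearAlgebra.Projectivization

namespace Pool.Agent.P.MP_7ebcb6_ag

noncomputable section

open MvPolynomial in
lemma aeval_scale {σ W R : Type} [AddCommMonoid W] [CommRing R] [Algebra ℂ R] (χ : W → R)
    (h0 : χ 0 = 1) (hadd : ∀ a b, χ (a + b) = χ a * χ b) {w : σ → W} {P : MvPolynomial σ ℂ}
    {d : W} (h : IsWeightedHomogeneous w P d) (v : σ → R) :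
    aeval (fun i => χ (w i) * v i) P = χ d * aeval v P := by
  let χ' : Multiplicative W →* R := ⟨⟨fun a => χ a.toAdd, h0⟩, fun a b => hadd _ _⟩
  have hs : ∀ (a : W) (k : ℕ), χ a ^ k = χ (k • a) := fun a k =>
    (map_pow χ' (Multiplicative.ofAdd a) k).symm
  have hp : ∀ (s : Finset σ) (a : σ → W), ∏ i ∈ s, χ (a i) = χ (∑ i ∈ s, a i) := fun s a =>
    (map_prod χ' (fun i => Multiplicative.ofAdd (a i)) s).symm
  rw [aeval_def, aeval_def, eval₂_eq, eval₂_eq, Finset.mul_sum]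
  refine Finset.sum_congr rfl fun m hm => ?_
  simp only [mul_pow, Finset.prod_mul_distrib, hs, hp]
  rw [← h (mem_support_iff.mp hm), Finsupp.weight_apply, Finsupp.sum]
  ring

open MvPolynomial in
lemma aeval_smul_homog {σ R : Type} [CommRing R] [Algebra ℂ R] {P : MvPolynomial σ ℂ} {d : ℕ}
    (h : P.IsHomogeneous d) (c : R) (v : σ → R) :
    aeval (fun i => c * v i) P = c ^ d * aeval v P := by
  simpa using aeval_scale (fun k : ℕ => c ^ k) (pow_zero c) (pow_add c) h v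

variable {n : ℕ}

/-- Cycles with a multiple rationally equivalent to zero. -/
def satTrivial (X : Set (ℙ ℂ (Fin (n + 1) → ℂ))) : AddSubgroup (X →₀ ℤ) where
  carrier := {D | ∃ m : ℕ, 0 < m ∧ m • D ∈ ratTrivial X}
  zero_mem' := ⟨1, one_pos, by simp⟩
  add_mem' := by
    rintro a b ⟨k, hk, ha⟩ ⟨l, hl, hb⟩
    refine ⟨k * l, Nat.mul_pos hk hl, ?_⟩
    rw [nsmul_add]
    refine add_mem ?_ ?_
    · rw [mul_nsmul]; exact nsmul_mem ha l
    · rw [mul_nsmul']; exact nsmul_mem hb k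
  neg_mem' := by
    rintro a ⟨k, hk, ha⟩
    exact ⟨k, hk, by rw [smul_neg]; exact neg_mem ha⟩

/-- Zero-cycles modulo rational equivalence and torsion. -/
abbrev Cyc (X : Set (ℙ ℂ (Fin (n + 1) → ℂ))) : Type := (X →₀ ℤ) ⧸ satTrivial X

instance (X : Set (ℙ ℂ (Fin (n + 1) → ℂ))) : IsAddTorsionFree (Cyc X) where
  nsmul_right_injective k hk a b h := by
    obtain ⟨a, rfl⟩ := QuotientAddGroup.mk_surjective a
    obtain ⟨b, rfl⟩ := QuotientAddGroup.mk_surjective b
    have h' : ((k • a : X →₀ ℤ) : Cyc X) = (k • b : X →₀ ℤ) := h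
    rw [QuotientAddGroup.eq] at h' ⊢
    obtain ⟨m, hm, hx⟩ := h'
    refine ⟨m * k, Nat.mul_pos hm (Nat.pos_of_ne_zero hk), ?_⟩
    rw [mul_nsmul', nsmul_add, smul_neg]
    exact hx

/-- The class of a point. -/
def ptCl {X : Set (ℙ ℂ (Fin (n + 1) → ℂ))} (x : X) : Cyc X :=
  QuotientAddGroup.mk (Finsupp.single x 1)

/-- The point `x` is the specialisation of `η`. -/
def HasVal (sp : Sp) (η : Fin (n + 1) → Om) (x : ℙ ℂ (Fin (n + 1) → ℂ)) : Prop :=
  ∃ c : Om, ∀ i, Tends sp.v (c * η i) (x.rep i)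

lemma HasVal.unique {sp : Sp} {η : Fin (n + 1) → Om} {x y : ℙ ℂ (Fin (n + 1) → ℂ)}
    (hx : HasVal sp η x) (hy : HasVal sp η y) : x = y := by
  obtain ⟨c, hc⟩ := hx
  obtain ⟨d, hd⟩ := hy
  obtain ⟨j, hj⟩ := Function.ne_iff.mp y.rep_nonzero
  rw [← x.mk_rep, ← y.mk_rep, Projectivization.mk_eq_mk_iff']
  refine ⟨x.rep j / y.rep j, funext fun i => ?_⟩
  have := ((hc i).mul (hd j)).eq_of_eq ((hc j).mul (hd i)) (by ring)
  have hj' : y.rep j ≠ 0 := hj
  simp only [Pi.smul_apply, smul_eq_mul]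
  field_simp
  linear_combination -this

lemma hasVal_mk {sp : Sp} {η : Fin (n + 1) → Om} {c : Om} {r : Fin (n + 1) → ℂ} (hr : r ≠ 0)
    (h : ∀ i, Tends sp.v (c * η i) (r i)) : HasVal sp η (Projectivization.mk ℂ r hr) := by
  obtain ⟨a, ha⟩ := Projectivization.exists_smul_eq_mk_rep ℂ r hr
  refine ⟨algebraMap ℂ Om a * c, fun i => ?_⟩
  rw [← ha, mul_assoc]
  exact (Tends.const (a : ℂ)).mul (h i)

lemma HasVal.mem {Z : Set (ℙ ℂ (Fin (n + 1) → ℂ))} {sp : Sp} {η : Fin (n + 1) → Om}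
    (hη : ∀ (P : MvPolynomial (Fin (n + 1)) ℂ) (d : ℕ), P.IsHomogeneous d →
      (∀ z ∈ Z, MvPolynomial.eval z.rep P = 0) → MvPolynomial.aeval η P = 0)
    {x : ℙ ℂ (Fin (n + 1) → ℂ)} (hx : HasVal sp η x) : x ∈ zariskiClosure Z := by
  obtain ⟨c, hc⟩ := hx
  intro P d hP hZ
  exact (Tends.mv_aeval hc P).eq_zero (by rw [aeval_smul_homog hP, hη P d hP hZ, mul_zero])

lemma IsCurveField.exists_value {K : Type} [Field K] [Algebra ℂ K] (hK : IsCurveField K)
    {w : Valuation K ℤᵐ⁰} (hw : IsPlace w) {η : Fin (n + 1) → K} (hη : η ≠ 0) :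
    ∃ x, IsValueAt w η x := by
  obtain ⟨i, -, hi⟩ := Finset.exists_max_image Finset.univ (fun i => w (η i)) Finset.univ_nonempty
  have hi0 : η i ≠ 0 := by
    intro h
    refine hη (funext fun j => ?_)
    simpa [h] using hi j (Finset.mem_univ j)
  have hle : ∀ j, w ((η i)⁻¹ * η j) ≤ 1 := by
    intro j
    rw [map_mul, map_inv₀, inv_mul_le_one₀ (zero_lt_iff.mpr (by simpa using hi0))]
    exact hi j (Finset.mem_univ j)
  choose r hr using fun j => hK.exists_residue hw _ (hle j)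
  have hr0 : r ≠ 0 := by
    intro h
    have := hr i
    rw [h, inv_mul_cancel₀ hi0] at this
    simp at this
  obtain ⟨a, ha⟩ := Projectivization.exists_smul_eq_mk_rep ℂ r hr0
  refine ⟨Projectivization.mk ℂ r hr0, algebraMap ℂ K a * (η i)⁻¹, fun j => ?_⟩
  rw [← ha]
  have : algebraMap ℂ K a * (η i)⁻¹ * η j - algebraMap ℂ K ((a • r) j)
      = algebraMap ℂ K a * ((η i)⁻¹ * η j - algebraMap ℂ K (r j)) := by
    simp only [Pi.smul_apply, Units.smul_def, smul_eq_mul, map_mul]; ring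
  rw [this, map_mul, hw.2 _ a.ne_zero, one_mul]
  exact hr j

lemma Lies.hasVal {sp : Sp} {K : IntermediateField (RatFunc ℂ) Om} {w : Valuation K ℤᵐ⁰}
    (hl : Lies sp K w) {η : Fin (n + 1) → K} {x : ℙ ℂ (Fin (n + 1) → ℂ)} (hx : IsValueAt w η x) :
    HasVal sp (fun i => (η i : Om)) x := by
  obtain ⟨c, hc⟩ := hx
  exact ⟨c, fun i => (hl.lt_one _).mp (hc i)⟩

/-- A point of `X` with coordinates in `Om` gives a family of point classes. -/
theorem exists_fam (Z : Set (ℙ ℂ (Fin (n + 1) → ℂ))) {η : Fin (n + 1) → Om} (h0 : η ≠ 0)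
    (hη : ∀ (P : MvPolynomial (Fin (n + 1)) ℂ) (d : ℕ), P.IsHomogeneous d →
      (∀ z ∈ Z, MvPolynomial.eval z.rep P = 0) → MvPolynomial.aeval η P = 0) :
    ∃ γ : Sp → Cyc (zariskiClosure Z), IsFam γ ∧
      ∀ (sp : Sp) (x : zariskiClosure Z), HasVal sp η x → γ sp = ptCl x := by
  classical
  have hK0 : ∀ (K : IntermediateField (RatFunc ℂ) Om) (h : ∀ i, η i ∈ K),
      (fun i => (⟨η i, h i⟩ : K)) ≠ 0 := fun K h hz =>
    h0 (funext fun i => congrArg Subtype.val (congrFun hz i))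
  have hex : ∀ sp : Sp, ∃ x : zariskiClosure Z, HasVal sp η x := by
    intro sp
    obtain ⟨K, hK, hT⟩ := exists_finK (Finset.univ.image η)
    obtain ⟨w, hw, hl⟩ := sp.exists_lies K
    obtain ⟨x, hx⟩ := (isCurveField_finK K).exists_value hw (hK0 K fun i => hT _ (by simp))
    exact ⟨⟨x, (hl.hasVal hx).mem hη⟩, hl.hasVal hx⟩
  choose val hval using hex
  refine ⟨fun sp => ptCl (val sp), ⟨Finset.univ.image η, fun K hK hT => ?_⟩, fun sp x hx =>
    congrArg ptCl (Subtype.ext ((hval sp).unique hx))⟩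
  obtain ⟨sp0, -⟩ := nonConst_lam.exists_sp 0
  have hexK : ∀ w : Valuation K ℤᵐ⁰, ∃ x : zariskiClosure Z, IsPlace w →
      IsValueAt w (fun i => (⟨η i, hT _ (by simp)⟩ : K)) x := by
    intro w
    by_cases hw : IsPlace w
    · obtain ⟨x, hx⟩ := (isCurveField_finK K).exists_value hw (hK0 K fun i => hT _ (by simp))
      obtain ⟨sp, hl⟩ := exists_sp_lies K hw
      exact ⟨⟨x, (hl.hasVal hx).mem hη⟩, fun _ => hx⟩
    · exact ⟨val sp0, fun h => absurd h hw⟩
  choose φ hφ using hexK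
  refine ⟨fun w => ptCl (φ w), fun sp w hw hl => ?_, fun f S hf hS hS' => ?_⟩
  · exact congrArg ptCl (Subtype.ext ((hval sp).unique (hl.hasVal (hφ w hw))))
  · have hmem : ∑ w ∈ S, Finsupp.single (φ w) (ord w f) ∈ ratTrivial (zariskiClosure Z) :=
      AddSubgroup.subset_closure ⟨K, inferInstance, inferInstance, isCurveField_finK K, _, φ, f, S,
        hφ, hf, hS, hS', rfl⟩
    have := (QuotientAddGroup.eq_zero_iff (N := satTrivial (zariskiClosure Z)) _).mpr
      ⟨1, one_pos, by rw [one_nsmul]; exact hmem⟩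
    rw [← this, ← QuotientAddGroup.mk'_apply, map_sum]
    refine Finset.sum_congr rfl fun w _ => ?_
    dsimp only
    rw [ptCl, ← QuotientAddGroup.mk'_apply, ← map_zsmul]
    simp

lemma torsion_of_const {X : Set (ℙ ℂ (Fin (n + 1) → ℂ))} {β : Cyc X} (h : ∀ x : X, ptCl x = β)
    (D : X →₀ ℤ) (hD : D.degree = 0) : ∃ m : ℕ, 0 < m ∧ m • D ∈ ratTrivial X := by
  have : (D : Cyc X) = D.degree • β := by
    clear hD
    induction D using Finsupp.induction_linear with
    | zero => simp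
    | add a b ha hb => rw [QuotientAddGroup.mk_add, ha, hb, map_add, add_zsmul]
    | single x k =>
      rw [Finsupp.degree_single, ← h x, ptCl, ← QuotientAddGroup.mk_zsmul]
      simp
  rw [hD, zero_zsmul] at this
  exact (QuotientAddGroup.eq_zero_iff _).mp this

end

end Pool.Agent.P.MP_7ebcb6_ag
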