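import Mathlib

/-!
Zero-cycles modulo rational equivalence on a subvariety of complex projective space, and
the Catanese-Debarre equations for surfaces with `K² = 2`, `p_g = 1` and torsion `ℤ/2`.
-/

open scoped WithZero LinearAlgebra.Projectivization IntermediateField

namespace Pool.Agent.P.MP_7ebcb6_ag

noncomputable section

/-- `K` is the function field of an irreducible complex curve: a finite extension of `ℂ(t)`. -/
def IsCurveField (K : Type) [Field K] [Algebra ℂ K] : Prop :=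
  ∃ t : K, Transcendental ℂ t ∧ FiniteDimensional ℂ⟮t⟯ K

/-- A place of `K/ℂ` (a point of the smooth projective curve with function field `K`):
a normalised discrete valuation of `K` that is trivial on `ℂ`. -/
def IsPlace {K : Type} [Field K] [Algebra ℂ K] (v : Valuation K ℤᵐ⁰) : Prop :=
  Function.Surjective v ∧ ∀ c : ℂ, c ≠ 0 → v (algebraMap ℂ K c) = 1

/-- The order of vanishing of `f` at the place `v` (Mathlib's valuations are multiplicative). -/
def ord {K : Type} [Field K] (v : Valuation K ℤᵐ⁰) (f : K) : ℤ := - WithZero.log (v f)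

/-- The morphism `(η₀ : … : ηₙ)` from the curve to `ℙⁿ` takes the value `x` at the place `v`. -/
def IsValueAt {K : Type} [Field K] [Algebra ℂ K] {n : ℕ} (v : Valuation K ℤᵐ⁰)
    (η : Fin (n + 1) → K) (x : ℙ ℂ (Fin (n + 1) → ℂ)) : Prop :=
  ∃ c : K, ∀ i, v (c * η i - algebraMap ℂ K (x.rep i)) < 1

/-- The zero-cycles on `X ⊆ ℙⁿ` that are rationally equivalent to zero: the subgroup generated by
the push-forwards `φ_* div f`, where `φ = (η₀ : … : ηₙ) : C → X` is a morphism from a smooth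
projective curve `C` with function field `K` and `f ∈ K` is nonzero. -/
def ratTrivial {n : ℕ} (X : Set (ℙ ℂ (Fin (n + 1) → ℂ))) : AddSubgroup (X →₀ ℤ) :=
  AddSubgroup.closure {D | ∃ (K : Type) (_ : Field K) (_ : Algebra ℂ K), IsCurveField K ∧
    ∃ (η : Fin (n + 1) → K) (φ : Valuation K ℤᵐ⁰ → X) (f : K) (S : Finset (Valuation K ℤᵐ⁰)),
      (∀ v, IsPlace v → IsValueAt v η (φ v)) ∧ f ≠ 0 ∧ (∀ v ∈ S, IsPlace v) ∧
      (∀ v, IsPlace v → v ∉ S → ord v f = 0) ∧ D = ∑ v ∈ S, Finsupp.single (φ v) (ord v f)}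

/-- The Zariski closure of a subset of `ℙⁿ`. -/
def zariskiClosure {n : ℕ} (Z : Set (ℙ ℂ (Fin (n + 1) → ℂ))) : Set (ℙ ℂ (Fin (n + 1) → ℂ)) :=
  {x | ∀ (P : MvPolynomial (Fin (n + 1)) ℂ) (d : ℕ), P.IsHomogeneous d →
    (∀ z ∈ Z, MvPolynomial.eval z.rep P = 0) → MvPolynomial.eval x.rep P = 0}

/-- Coefficients of a quartic form in `x₁, x₂, x₃` that is even in `x₂`. -/
structure EvenQuartic where
  /-- coefficients of `x₁⁴, x₁³x₃, x₁²x₃², x₁x₃³, x₃⁴` -/
  a : Fin 5 → ℂ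
  /-- coefficients of `x₂²x₁², x₂²x₁x₃, x₂²x₃²` -/
  b : Fin 3 → ℂ
  /-- coefficient of `x₂⁴` -/
  c : ℂ

open MvPolynomial in
/-- The quartic form itself; the variables are `x₁, x₂, x₃, y₁, y₃ = X 0, …, X 4`. -/
def EvenQuartic.poly (f : EvenQuartic) : MvPolynomial (Fin 5) ℂ :=
  C (f.a 0) * X 0 ^ 4 + C (f.a 1) * X 0 ^ 3 * X 2 + C (f.a 2) * X 0 ^ 2 * X 2 ^ 2
    + C (f.a 3) * X 0 * X 2 ^ 3 + C (f.a 4) * X 2 ^ 4
    + X 1 ^ 2 * (C (f.b 0) * X 0 ^ 2 + C (f.b 1) * X 0 * X 2 + C (f.b 2) * X 2 ^ 2)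
    + C f.c * X 1 ^ 4

open MvPolynomial in
/-- The first equation `y₁² + x₁x₂y₃ + f`. -/
def q₀ (f : EvenQuartic) : MvPolynomial (Fin 5) ℂ := X 3 ^ 2 + X 0 * X 1 * X 4 + f.poly

open MvPolynomial in
/-- The second equation `y₃² + x₂x₃y₁ + g`. -/
def q₂ (g : EvenQuartic) : MvPolynomial (Fin 5) ℂ := X 4 ^ 2 + X 1 * X 2 * X 3 + g.poly

/-- The degree in `ℙ(1,1,1,2,2)` and the sign of the variables under the involution
`(x₁, x₂, x₃, y₁, y₃) ↦ (x₁, -x₂, x₃, -y₁, -y₃)`. -/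
def wt : Fin 5 → ℕ × ZMod 2 := ![(1, 0), (1, 1), (1, 0), (2, 1), (2, 1)]

open Polynomial in
/-- The linear polynomial `r + s σ`, as a constant of `ℂ[σ][t]`. -/
def mix (r s : ℂ) : ℂ[X][X] := C (C r + C s * X)

open Polynomial in
/-- At `(x₁, x₂, x₃) = (1, x, t)` and `u = x²`, four times the determinant of the conic
`q₀ + σ q₂` in `(y₁, y₃)` is `4σ(f + σ g) - σ³ u t² - u = A u² + B u + C`.  This is `B² - 4AC`,
as a polynomial in `t` (outer variable `X`) with coefficients in `ℂ[σ]` (`σ = C X`). -/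
def pencilDisc (f g : EvenQuartic) : ℂ[X][X] :=
  (4 * C X * (mix (f.b 0) (g.b 0) + mix (f.b 1) (g.b 1) * X + mix (f.b 2) (g.b 2) * X ^ 2)
      - 1 - C X ^ 3 * X ^ 2) ^ 2
    - 4 * (4 * C X * mix f.c g.c) * (4 * C X * (mix (f.a 0) (g.a 0) + mix (f.a 1) (g.a 1) * X
      + mix (f.a 2) (g.a 2) * X ^ 2 + mix (f.a 3) (g.a 3) * X ^ 3 + mix (f.a 4) (g.a 4) * X ^ 4))

open Polynomial in
/-- The classical invariant `I` of a binary quartic. -/
def invI (D : ℂ[X][X]) : ℂ[X] :=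
  12 * D.coeff 0 * D.coeff 4 - 3 * D.coeff 1 * D.coeff 3 + D.coeff 2 ^ 2

open Polynomial in
/-- The classical invariant `J` of a binary quartic; the discriminant is `(4I³ - J²)/27`. -/
def invJ (D : ℂ[X][X]) : ℂ[X] :=
  72 * D.coeff 0 * D.coeff 2 * D.coeff 4 + 9 * D.coeff 1 * D.coeff 2 * D.coeff 3
    - 27 * D.coeff 0 * D.coeff 3 ^ 2 - 27 * D.coeff 1 ^ 2 * D.coeff 4 - 2 * D.coeff 2 ^ 3

/-- The image in `ℙⁿ` of the zero set of `q, q'` under the map given by the forms `N₀, …, Nₙ`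
(outside their common zeros). -/
def imageOf {n : ℕ} (q q' : MvPolynomial (Fin 5) ℂ) (N : Fin (n + 1) → MvPolynomial (Fin 5) ℂ) :
    Set (ℙ ℂ (Fin (n + 1) → ℂ)) :=
  {z | ∃ p : Fin 5 → ℂ, MvPolynomial.eval p q = 0 ∧ MvPolynomial.eval p q' = 0 ∧
    ∃ h : (fun i => MvPolynomial.eval p (N i)) ≠ 0, z = Projectivization.mk ℂ _ h}

end

end Pool.Agent.P.MP_7ebcb6_ag
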