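import Pool.Agent.P.MP_7ebcb6_ag.Tangent

/-! Genus one curves `z² = quartic`, osculating parabolas and the Jacobian. -/

open scoped Polynomial

namespace Pool.Agent.P.MP_7ebcb6_ag

noncomputable section

/-- Coefficients of a quartic. -/
structure Quart (R : Type) where
  e0 : R
  e1 : R
  e2 : R
  e3 : R
  e4 : R

namespace Quart

section ring
variable {R : Type} [CommRing R] (g : Quart R)

/-- Value of the quartic. -/
def ev (T : R) : R := g.e0 + g.e1 * T + g.e2 * T ^ 2 + g.e3 * T ^ 3 + g.e4 * T ^ 4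

/-- Taylor expansion at `t`. -/
def shift (t : R) : Quart R :=
  ⟨g.e0 + g.e1 * t + g.e2 * t ^ 2 + g.e3 * t ^ 3 + g.e4 * t ^ 4,
    g.e1 + 2 * g.e2 * t + 3 * g.e3 * t ^ 2 + 4 * g.e4 * t ^ 3,
    g.e2 + 3 * g.e3 * t + 6 * g.e4 * t ^ 2, g.e3 + 4 * g.e4 * t, g.e4⟩

/-- Invariant `I`. -/
def I : R := iI g.e0 g.e1 g.e2 g.e3 g.e4
/-- Invariant `J`. -/
def J : R := iJ g.e0 g.e1 g.e2 g.e3 g.e4

/-- The cubic of the Jacobian. -/
def W (X : R) : R := X ^ 3 + g.e2 * X ^ 2 + (g.e1 * g.e3 - 4 * g.e0 * g.e4) * X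
  + (g.e0 * g.e3 ^ 2 + g.e1 ^ 2 * g.e4 - 4 * g.e0 * g.e2 * g.e4)

lemma shift_ev (t T : R) : (g.shift t).ev T = g.ev (t + T) := by unfold shift ev; ring
lemma shift_e0 (t : R) : (g.shift t).e0 = g.ev t := rfl
lemma shift_I (t : R) : (g.shift t).I = g.I := iI_shift _ _ _ _ _ _
lemma shift_J (t : R) : (g.shift t).J = g.J := iJ_shift _ _ _ _ _ _
lemma W_eq (X : R) : 27 * g.W X = (3 * X + g.e2) ^ 3 - 3 * g.I * (3 * X + g.e2) - g.J := by
  unfold W I J iI iJ; ring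

end ring

section field
variable {R : Type} [Field R] (g : Quart R)

/-- Leading coefficient of the parabola. -/
def pm (z X : R) : R := -X / (2 * z)
/-- Coefficients of the residual quadratic. -/
def q2 (z X : R) : R := g.e4 - pm z X ^ 2
/-- Coefficients of the residual quadratic. -/
def q1 (z X : R) : R := g.e3 - g.e1 * pm z X / z
/-- Coefficients of the residual quadratic. -/
def q0 (z X : R) : R := g.e2 - (g.e1 / (2 * z)) ^ 2 + X
/-- A root of the residual quadratic. -/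
def pT (z X Y : R) : R := (-g.q1 z X + Y / z) / (2 * g.q2 z X)
/-- The parabola. -/
def pp (z X T : R) : R := z + g.e1 / (2 * z) * T + pm z X * T ^ 2

variable [CharZero R]

lemma ev_sub_pp {z : R} (hz : z ≠ 0) (h : z ^ 2 = g.e0) (X T : R) :
    g.ev T - g.pp z X T ^ 2 = T ^ 2 * (g.q0 z X + g.q1 z X * T + g.q2 z X * T ^ 2) := by
  unfold ev pp q0 q1 q2 pm; rw [← h]; field_simp; ring

lemma W_eq_disc {z : R} (hz : z ≠ 0) (h : z ^ 2 = g.e0) (X : R) :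
    g.W X = z ^ 2 * (g.q1 z X ^ 2 - 4 * g.q0 z X * g.q2 z X) := by
  unfold W q0 q1 q2 pm; rw [← h]; field_simp; ring

lemma pT_add {z X : R} (Y : R) (h2 : g.q2 z X ≠ 0) :
    g.q2 z X * (g.pT z X Y + g.pT z X (-Y)) = -g.q1 z X := by
  unfold pT; field_simp; ring

lemma pT_mul {z X Y : R} (hz : z ≠ 0) (h : z ^ 2 = g.e0) (h2 : g.q2 z X ≠ 0) (hY : Y ^ 2 = g.W X) :
    g.q2 z X * (g.pT z X Y * g.pT z X (-Y)) = g.q0 z X := by
  rw [g.W_eq_disc hz h] at hY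
  unfold pT; field_simp; linear_combination -hY

lemma quad_eq {z X Y : R} (hz : z ≠ 0) (h : z ^ 2 = g.e0) (h2 : g.q2 z X ≠ 0)
    (hY : Y ^ 2 = g.W X) (T : R) : g.q0 z X + g.q1 z X * T + g.q2 z X * T ^ 2
      = g.q2 z X * (T - g.pT z X Y) * (T - g.pT z X (-Y)) := by
  linear_combination T * g.pT_add Y h2 - g.pT_mul hz h h2 hY

lemma on_curve {z X Y : R} (hz : z ≠ 0) (h : z ^ 2 = g.e0) (h2 : g.q2 z X ≠ 0)
    (hY : Y ^ 2 = g.W X) : g.pp z X (g.pT z X Y) ^ 2 = g.ev (g.pT z X Y) := by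
  have h3 := g.ev_sub_pp hz h X (g.pT z X Y)
  rw [g.quad_eq hz h h2 hY] at h3
  linear_combination -h3

omit [CharZero R] in
lemma pm_neg (z X : R) : pm (-z) X = -pm z X := by unfold pm; rw [mul_neg, div_neg]
omit [CharZero R] in
lemma q2_neg (z X : R) : g.q2 (-z) X = g.q2 z X := by unfold q2; rw [pm_neg]; ring
omit [CharZero R] in
lemma q1_neg (z X : R) : g.q1 (-z) X = g.q1 z X := by unfold q1; rw [pm_neg]; ring
omit [CharZero R] in
lemma pT_neg (z X Y : R) : g.pT (-z) X Y = g.pT z X (-Y) := by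
  unfold pT; rw [q1_neg, q2_neg, div_neg, neg_div]
omit [CharZero R] in
lemma pp_neg (z X T : R) : g.pp (-z) X T = -g.pp z X T := by
  unfold pp; rw [pm_neg, mul_neg, div_neg]; ring

lemma disc_eq_zero {z X : R} (hz : z ≠ 0) (h : z ^ 2 = g.e0) (h0 : g.q0 z X = 0)
    (h1 : g.q1 z X = 0) (h2 : g.q2 z X = 0) : 4 * g.I ^ 3 - g.J ^ 2 = 0 := by
  have e1 : g.e1 = 2 * z * (g.e1 / (2 * z)) := by field_simp
  have e2 : g.e2 = (g.e1 / (2 * z)) ^ 2 + 2 * z * pm z X := by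
    unfold q0 at h0; unfold pm; field_simp; field_simp at h0; linear_combination h0
  have e3 : g.e3 = 2 * (g.e1 / (2 * z)) * pm z X := by
    unfold q1 at h1; field_simp; field_simp at h1; linear_combination h1
  have e4 : g.e4 = pm z X ^ 2 := by unfold q2 at h2; linear_combination h2
  unfold I J
  rw [← h, e2, e3, e4]
  generalize g.e1 / (2 * z) = a at e1
  rw [e1]
  unfold iI iJ; ring

end field

end Quart

/-- Coefficientwise specialisation of a quartic. -/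
structure TendsQ (sp : Sp) (G : Quart Om) (g : Quart ℂ) : Prop where
  t0 : Tends sp.v G.e0 g.e0
  t1 : Tends sp.v G.e1 g.e1
  t2 : Tends sp.v G.e2 g.e2
  t3 : Tends sp.v G.e3 g.e3
  t4 : Tends sp.v G.e4 g.e4

namespace TendsQ

variable {sp : Sp} {G : Quart Om} {g : Quart ℂ}

lemma ev (h : TendsQ sp G g) {T : Om} {t : ℂ} (hT : Tends sp.v T t) :
    Tends sp.v (G.ev T) (g.ev t) := by
  obtain ⟨h0, h1, h2, h3, h4⟩ := h
  unfold Quart.ev
  apply_rules (transparency := .reducible) [Tends.add, Tends.mul, Tends.pow]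

lemma shift (h : TendsQ sp G g) {T : Om} {t : ℂ} (hT : Tends sp.v T t) :
    TendsQ sp (G.shift T) (g.shift t) := by
  obtain ⟨h0, h1, h2, h3, h4⟩ := h
  constructor <;> dsimp only [Quart.shift] <;>
    apply_rules (transparency := .reducible) [Tends.add, Tends.mul, Tends.pow, Tends.ofNat]

lemma W (h : TendsQ sp G g) {X : Om} {x : ℂ} (hX : Tends sp.v X x) :
    Tends sp.v (G.W X) (g.W x) := by
  obtain ⟨h0, h1, h2, h3, h4⟩ := h
  unfold Quart.W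
  apply_rules (transparency := .reducible)
    [Tends.add, Tends.sub, Tends.mul, Tends.pow, Tends.ofNat]

variable {Z X Y T : Om} {z x y t : ℂ}

lemma pm (hZ : Tends sp.v Z z) (hz : z ≠ 0) (hX : Tends sp.v X x) :
    Tends sp.v (Quart.pm Z X) (Quart.pm z x) :=
  hX.neg.div ((Tends.ofNat 2).mul hZ) (mul_ne_zero two_ne_zero hz)

lemma q2 (h : TendsQ sp G g) (hZ : Tends sp.v Z z) (hz : z ≠ 0) (hX : Tends sp.v X x) :
    Tends sp.v (G.q2 Z X) (g.q2 z x) := h.t4.sub ((pm hZ hz hX).pow 2)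

lemma q1 (h : TendsQ sp G g) (hZ : Tends sp.v Z z) (hz : z ≠ 0) (hX : Tends sp.v X x) :
    Tends sp.v (G.q1 Z X) (g.q1 z x) := h.t3.sub ((h.t1.mul (pm hZ hz hX)).div hZ hz)

lemma q0 (h : TendsQ sp G g) (hZ : Tends sp.v Z z) (hz : z ≠ 0) (hX : Tends sp.v X x) :
    Tends sp.v (G.q0 Z X) (g.q0 z x) :=
  (h.t2.sub ((h.t1.div ((Tends.ofNat 2).mul hZ) (mul_ne_zero two_ne_zero hz)).pow 2)).add hX

lemma pT (h : TendsQ sp G g) (hZ : Tends sp.v Z z) (hz : z ≠ 0) (hX : Tends sp.v X x)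
    (hY : Tends sp.v Y y) (h2 : g.q2 z x ≠ 0) : Tends sp.v (G.pT Z X Y) (g.pT z x y) :=
  ((h.q1 hZ hz hX).neg.add (hY.div hZ hz)).div ((Tends.ofNat 2).mul (h.q2 hZ hz hX))
    (mul_ne_zero two_ne_zero h2)

lemma pp (h : TendsQ sp G g) (hZ : Tends sp.v Z z) (hz : z ≠ 0) (hX : Tends sp.v X x)
    (hT : Tends sp.v T t) : Tends sp.v (G.pp Z X T) (g.pp z x t) :=
  (hZ.add ((h.t1.div ((Tends.ofNat 2).mul hZ) (mul_ne_zero two_ne_zero hz)).mul hT)).add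
    ((pm hZ hz hX).mul (hT.pow 2))

end TendsQ

lemma Sp.exists_tends_sqrt (sp : Sp) {z : Om} {c : ℂ} (h : Tends sp.v (z ^ 2) c) :
    ∃ d : ℂ, Tends sp.v z d ∧ d ^ 2 = c := by
  obtain ⟨d, hd⟩ := sp.exists_tends (a := z)
    (le_one_of_quadratic sp.v (p := 0) (q := -z ^ 2) (by simp) h.neg.le_one (by ring))
  exact ⟨d, hd, (hd.pow 2).unique h⟩

lemma Sp.tends_sqrt (sp : Sp) {z : Om} {c : ℂ} (h : Tends sp.v (z ^ 2) (c ^ 2)) :
    Tends sp.v z c ∨ Tends sp.v z (-c) := by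
  obtain ⟨d, hd, hc⟩ := sp.exists_tends_sqrt h
  rcases sq_eq_sq_iff_eq_or_eq_neg.mp hc with rfl | rfl
  exacts [Or.inl hd, Or.inr hd]

/-- The data of a pencil of genus one curves with an anti-invariant class function. -/
structure EllData (M : Type) [AddCommGroup M] where
  D : Quart ℂ[X]
  Ψ : ℂ → ℂ → ℂ → M
  Gd : ℂ → ℂ → Prop
  σ0 : ℂ
  σ1 : ℂ
  x : ℂ
  a1 : ℂ
  a2 : ℂ
  a3 : ℂ
  a4 : ℂ
  B0 : ℂ
  B1 : ℂ
  B2 : ℂ
  B3 : ℂ
  B4 : ℂ
  hδ : a1 ^ 2 - 12 * x * B0 ≠ 0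
  hI : D.I = -3 * Polynomial.X ^ 2 * (Polynomial.X - Polynomial.C σ0) ^ 4
    * wa (Polynomial.C x) (Polynomial.C a1) (Polynomial.C a2) (Polynomial.C a3) (Polynomial.C a4)
      (Polynomial.X - Polynomial.C σ1)
  hJ : D.J = 27 * Polynomial.X ^ 3 * (Polynomial.X - Polynomial.C σ0) ^ 6
    * wb (Polynomial.C x) (Polynomial.C a1) (Polynomial.C a2) (Polynomial.C a3) (Polynomial.C a4)
      (Polynomial.C B0) (Polynomial.C B1) (Polynomial.C B2) (Polynomial.C B3) (Polynomial.C B4)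
      (Polynomial.X - Polynomial.C σ1)
  neg : ∀ s t z, Ψ (-s) t z = -Ψ s t z
  fam : ∀ s t z : Om, z ^ 2 = Quart.ev ⟨Polynomial.aeval (-s ^ 2) D.e0,
      Polynomial.aeval (-s ^ 2) D.e1, Polynomial.aeval (-s ^ 2) D.e2, Polynomial.aeval (-s ^ 2) D.e3,
      Polynomial.aeval (-s ^ 2) D.e4⟩ t →
    ∃ γ : Sp → M, IsFam γ ∧ ∀ (sp : Sp) (s0 t0 z0 : ℂ), Tends sp.v s s0 → Tends sp.v t t0 →
      Tends sp.v z z0 → s0 ≠ 0 → -s0 ^ 2 ≠ σ1 → Gd (-s0 ^ 2) t0 → γ sp = Ψ s0 t0 z0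

namespace EllData

variable {M : Type} [AddCommGroup M] (E : EllData M)

/-- The fibre over `σ`. -/
def at' {R : Type} [CommRing R] [Algebra ℂ R] (σ : R) : Quart R :=
  ⟨Polynomial.aeval σ E.D.e0, Polynomial.aeval σ E.D.e1, Polynomial.aeval σ E.D.e2,
    Polynomial.aeval σ E.D.e3, Polynomial.aeval σ E.D.e4⟩

lemma tends_at {sp : Sp} {S : Om} {s : ℂ} (h : Tends sp.v S s) : TendsQ sp (E.at' S) (E.at' s) := by
  constructor <;> simpa [at'] using h.aeval _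

lemma at_I {R : Type} [CommRing R] [Algebra ℂ R] (σ : R) : (E.at' σ).I
    = -3 * σ ^ 2 * (σ - algebraMap ℂ R E.σ0) ^ 4 * wa (algebraMap ℂ R E.x) (algebraMap ℂ R E.a1)
      (algebraMap ℂ R E.a2) (algebraMap ℂ R E.a3) (algebraMap ℂ R E.a4)
      (σ - algebraMap ℂ R E.σ1) := by
  have := congrArg (Polynomial.aeval σ) E.hI
  simpa [Quart.I, iI, wa, at', map_ofNat] using this

lemma at_J {R : Type} [CommRing R] [Algebra ℂ R] (σ : R) : (E.at' σ).J
    = 27 * σ ^ 3 * (σ - algebraMap ℂ R E.σ0) ^ 6 * wb (algebraMap ℂ R E.x) (algebraMap ℂ R E.a1)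
      (algebraMap ℂ R E.a2) (algebraMap ℂ R E.a3) (algebraMap ℂ R E.a4) (algebraMap ℂ R E.B0)
      (algebraMap ℂ R E.B1) (algebraMap ℂ R E.B2) (algebraMap ℂ R E.B3) (algebraMap ℂ R E.B4)
      (σ - algebraMap ℂ R E.σ1) := by
  have := congrArg (Polynomial.aeval σ) E.hJ
  simpa [Quart.J, iJ, wb, at', map_ofNat] using this

lemma fam' (s t z : Om) (h : z ^ 2 = (E.at' (-s ^ 2)).ev t) :
    ∃ γ : Sp → M, IsFam γ ∧ ∀ (sp : Sp) (s0 t0 z0 : ℂ), Tends sp.v s s0 → Tends sp.v t t0 →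
      Tends sp.v z z0 → s0 ≠ 0 → -s0 ^ 2 ≠ E.σ1 → E.Gd (-s0 ^ 2) t0 → γ sp = E.Ψ s0 t0 z0 :=
  E.fam s t z h

variable [IsAddTorsionFree M]

/-- The class function is anti-invariant under the hyperelliptic involution of the fibres. -/
lemma stepB {s0 t0 z0 : ℂ} (hs : s0 ≠ 0) (h1 : -s0 ^ 2 ≠ E.σ1) (hG : E.Gd (-s0 ^ 2) t0)
    (hz : z0 ^ 2 = (E.at' (-s0 ^ 2)).ev t0) : E.Ψ s0 t0 (-z0) = -E.Ψ s0 t0 z0 := by
  set s : Om := algebraMap ℂ Om s0 * (1 + lam) / (1 - lam) with hsdef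
  obtain ⟨z, hzz⟩ := exists_sqrt ((E.at' (-s ^ 2)).ev (algebraMap ℂ Om t0))
  obtain ⟨γ1, f1, g1⟩ := E.fam' s _ z hzz
  obtain ⟨γ2, f2, g2⟩ := E.fam' s _ (-z) (by rw [neg_sq]; exact hzz)
  have key : ∀ (sp : Sp) (s1 : ℂ), Tends sp.v s s1 → s1 ^ 2 = s0 ^ 2 →
      γ1 sp + γ2 sp = E.Ψ s1 t0 z0 + E.Ψ s1 t0 (-z0) := by
    intro sp s1 ht he
    have hs1 : s1 ≠ 0 := by
      rintro rfl
      exact hs (pow_eq_zero_iff two_ne_zero |>.mp (by rw [← he]; ring))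
    have hzt : Tends sp.v (z ^ 2) (z0 ^ 2) := by
      rw [hzz, hz, ← he]
      exact (E.tends_at (ht.pow 2).neg).ev (Tends.const t0)
    rw [← he] at h1 hG
    rcases sp.tends_sqrt hzt with h | h
    · rw [g1 sp s1 t0 z0 ht (Tends.const t0) h hs1 h1 hG,
        g2 sp s1 t0 (-z0) ht (Tends.const t0) h.neg hs1 h1 hG]
    · rw [g1 sp s1 t0 (-z0) ht (Tends.const t0) h hs1 h1 hG,
        g2 sp s1 t0 z0 ht (Tends.const t0) (by simpa using h.neg) hs1 h1 hG, add_comm]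
  have h := (f1.add f2).eq_of_lam (α := E.Ψ s0 t0 z0 + E.Ψ s0 t0 (-z0))
    (β := E.Ψ (-s0) t0 z0 + E.Ψ (-s0) t0 (-z0)) (fun sp hl => key sp s0 (by
      have := ((Tends.const (v := sp.v) s0).mul (Tends.one.add hl)).div (Tends.one.sub hl)
        (by simp)
      simpa using this) rfl) (fun sp hl => key sp (-s0) (by
      have := ((Tends.const (v := sp.v) s0).mul (hl.add Tends.one)).div (hl.sub Tends.one)
        (by simp)
      have e : algebraMap ℂ Om s0 * (lam⁻¹ + 1) / (lam⁻¹ - 1) = s := by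
        have h0 := nonConst_lam.ne_zero
        have h2 : 1 - lam ≠ 0 := fun h => nonConst_lam 1 (by rw [map_one]; linear_combination -h)
        rw [hsdef]; field_simp
      rw [e] at this
      simpa [div_neg] using this) (by ring))
  rw [E.neg, E.neg, ← neg_add] at h
  exact eq_neg_of_add_eq_zero_right (eq_zero_of_eq_neg' h)

end EllData

end

end Pool.Agent.P.MP_7ebcb6_ag
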