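import Pool.Agent.P.MP_7ebcb6_ag.Ell1

/-! Rational curves on the Jacobian surface. -/

open scoped Polynomial

namespace Pool.Agent.P.MP_7ebcb6_ag

noncomputable section

namespace EllData

variable {M : Type} [AddCommGroup M] (E : EllData M)

/-- The class at one of the two residual points of the parabola. -/
def Λ (t0 s z X Y : ℂ) : M :=
  E.Ψ s (t0 + ((E.at' (-s ^ 2)).shift t0).pT z X Y)
    (((E.at' (-s ^ 2)).shift t0).pp z X (((E.at' (-s ^ 2)).shift t0).pT z X Y))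

lemma Λ_neg_s (t0 s z X Y : ℂ) : E.Λ t0 (-s) z X Y = -E.Λ t0 s z X Y := by
  unfold Λ; rw [E.neg, neg_sq]

lemma famΛ (t0 : ℂ) (s z X Y : Om) (hz : z ^ 2 = (E.at' (-s ^ 2)).ev (algebraMap ℂ Om t0))
    (hY : Y ^ 2 = ((E.at' (-s ^ 2)).shift (algebraMap ℂ Om t0)).W X) :
    ∃ γ : Sp → M, IsFam γ ∧ ∀ (sp : Sp) (s0 z0 X0 Y0 : ℂ), Tends sp.v s s0 → Tends sp.v z z0 →
      Tends sp.v X X0 → Tends sp.v Y Y0 → s0 ≠ 0 → -s0 ^ 2 ≠ E.σ1 → z0 ≠ 0 →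
      ((E.at' (-s0 ^ 2)).shift t0).q2 z0 X0 ≠ 0 →
      E.Gd (-s0 ^ 2) (t0 + ((E.at' (-s0 ^ 2)).shift t0).pT z0 X0 Y0) →
      γ sp = E.Λ t0 s0 z0 X0 Y0 := by
  set G := (E.at' (-s ^ 2)).shift (algebraMap ℂ Om t0) with hG
  by_cases h : z ≠ 0 ∧ G.q2 z X ≠ 0
  · obtain ⟨γ, hγ, hv⟩ := E.fam' s (algebraMap ℂ Om t0 + G.pT z X Y) (G.pp z X (G.pT z X Y))
      (by rw [G.on_curve h.1 hz h.2 hY, hG, Quart.shift_ev])
    refine ⟨γ, hγ, fun sp s0 z0 X0 Y0 ts tz tX tY h0 h1 h2 h3 h4 => ?_⟩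
    have tG := (E.tends_at (ts.pow 2).neg).shift (Tends.const t0)
    have tT := tG.pT tz h2 tX tY h3
    exact hv sp s0 _ _ ts ((Tends.const t0).add tT) (tG.pp tz h2 tX tT) h0 h1 h4
  · refine ⟨fun _ => 0, IsFam.zero, fun sp s0 z0 X0 Y0 ts tz tX tY h0 h1 h2 h3 h4 => ?_⟩
    have tG := (E.tends_at (ts.pow 2).neg).shift (Tends.const t0)
    exact absurd ⟨tz.ne_zero h2, (tG.q2 tz h2 tX).ne_zero h3⟩ h

lemma weier {R : Type} [Field R] [CharZero R] [Algebra ℂ R] (s t ξ : R) :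
    ((E.at' (-s ^ 2)).shift t).W (s ^ 2 * (-s ^ 2 - algebraMap ℂ R E.σ0) ^ 2 * ξ
        - ((E.at' (-s ^ 2)).shift t).e2 / 3)
      = (s ^ 3 * (-s ^ 2 - algebraMap ℂ R E.σ0) ^ 3) ^ 2 * (ξ ^ 3
        + wa (algebraMap ℂ R E.x) (algebraMap ℂ R E.a1) (algebraMap ℂ R E.a2) (algebraMap ℂ R E.a3)
          (algebraMap ℂ R E.a4) (-s ^ 2 - algebraMap ℂ R E.σ1) * ξ
        + wb (algebraMap ℂ R E.x) (algebraMap ℂ R E.a1) (algebraMap ℂ R E.a2) (algebraMap ℂ R E.a3)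
          (algebraMap ℂ R E.a4) (algebraMap ℂ R E.B0) (algebraMap ℂ R E.B1) (algebraMap ℂ R E.B2)
          (algebraMap ℂ R E.B3) (algebraMap ℂ R E.B4) (-s ^ 2 - algebraMap ℂ R E.σ1)) := by
  have h := ((E.at' (-s ^ 2)).shift t).W_eq (s ^ 2 * (-s ^ 2 - algebraMap ℂ R E.σ0) ^ 2 * ξ
        - ((E.at' (-s ^ 2)).shift t).e2 / 3)
  rw [Quart.shift_I, Quart.shift_J, at_I, at_J] at h
  apply mul_left_cancel₀ (show (27 : R) ≠ 0 by norm_num)
  rw [h]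
  generalize -s ^ 2 - algebraMap ℂ R E.σ0 = ρ
  generalize wa _ _ _ _ _ (-s ^ 2 - algebraMap ℂ R E.σ1) = a
  generalize wb _ _ _ _ _ _ _ _ _ _ (-s ^ 2 - algebraMap ℂ R E.σ1) = b
  ring

lemma weier_line {R : Type} [Field R] [CharZero R] [Algebra ℂ R] (s t τ n0 n1 α β γ0 γ1 γ2 : R)
    (hτ : τ = -s ^ 2 - algebraMap ℂ R E.σ1)
    (h0 : le0 (algebraMap ℂ R E.x) (algebraMap ℂ R E.a1) (algebraMap ℂ R E.B0) n0 = β ^ 2 * γ0)
    (h1 : le1 (algebraMap ℂ R E.x) (algebraMap ℂ R E.a1) (algebraMap ℂ R E.a2) (algebraMap ℂ R E.B1)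
        n0 n1 = 2 * α * β * γ0 + β ^ 2 * γ1)
    (h2 : le2 (algebraMap ℂ R E.x) (algebraMap ℂ R E.a2) (algebraMap ℂ R E.a3) (algebraMap ℂ R E.B2)
        n0 n1 = α ^ 2 * γ0 + 2 * α * β * γ1 + β ^ 2 * γ2)
    (h3 : le3 (algebraMap ℂ R E.a3) (algebraMap ℂ R E.a4) (algebraMap ℂ R E.B3) n0 n1
        = α ^ 2 * γ1 + 2 * α * β * γ2)
    (h4 : le4 (algebraMap ℂ R E.a4) (algebraMap ℂ R E.B4) n1 = α ^ 2 * γ2) :
    ((E.at' (-s ^ 2)).shift t).W (s ^ 2 * (-s ^ 2 - algebraMap ℂ R E.σ0) ^ 2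
        * (algebraMap ℂ R E.x + τ * (n0 + n1 * τ)) - ((E.at' (-s ^ 2)).shift t).e2 / 3)
      = (s ^ 3 * (-s ^ 2 - algebraMap ℂ R E.σ0) ^ 3 * τ * (α * τ + β)) ^ 2
        * (γ0 + γ1 * τ + γ2 * τ ^ 2) := by
  rw [E.weier, ← hτ, cubic_on_line, h0, h1, h2, h3, h4]
  ring

variable [IsAddTorsionFree M]

lemma Λ_neg_z {t0 s z X Y : ℂ} (hs : s ≠ 0) (h1 : -s ^ 2 ≠ E.σ1) (hz : z ≠ 0)
    (hzz : z ^ 2 = (E.at' (-s ^ 2)).ev t0) (h2 : ((E.at' (-s ^ 2)).shift t0).q2 z X ≠ 0)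
    (hY : Y ^ 2 = ((E.at' (-s ^ 2)).shift t0).W X)
    (hG : E.Gd (-s ^ 2) (t0 + ((E.at' (-s ^ 2)).shift t0).pT z X Y)) :
    E.Λ t0 s (-z) X (-Y) = -E.Λ t0 s z X Y := by
  unfold Λ
  rw [Quart.pT_neg, Quart.pp_neg, neg_neg]
  exact E.stepB hs h1 hG (by rw [Quart.on_curve _ hz hzz h2 hY, Quart.shift_ev])

/-- The two residual points have the same class when the point of the Jacobian lies on one of the
rational curves. -/
lemma stepD {t0 s z X Y : ℂ} (hs : s ≠ 0) (h1 : -s ^ 2 ≠ E.σ1) (hz : z ≠ 0)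
    (hzz : z ^ 2 = (E.at' (-s ^ 2)).ev t0) (h2 : ((E.at' (-s ^ 2)).shift t0).q2 z X ≠ 0)
    (hY : Y ^ 2 = ((E.at' (-s ^ 2)).shift t0).W X)
    (hG : E.Gd (-s ^ 2) (t0 + ((E.at' (-s ^ 2)).shift t0).pT z X Y))
    (hG' : E.Gd (-s ^ 2) (t0 + ((E.at' (-s ^ 2)).shift t0).pT z X (-Y)))
    (τ n0 n1 α β γ0 γ1 γ2 : ℂ) (hτ : τ = -s ^ 2 - E.σ1)
    (hX : X = s ^ 2 * (-s ^ 2 - E.σ0) ^ 2 * (E.x + τ * (n0 + n1 * τ))
      - ((E.at' (-s ^ 2)).shift t0).e2 / 3)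
    (c0 : le0 E.x E.a1 E.B0 n0 = β ^ 2 * γ0)
    (c1 : le1 E.x E.a1 E.a2 E.B1 n0 n1 = 2 * α * β * γ0 + β ^ 2 * γ1)
    (c2 : le2 E.x E.a2 E.a3 E.B2 n0 n1 = α ^ 2 * γ0 + 2 * α * β * γ1 + β ^ 2 * γ2)
    (c3 : le3 E.a3 E.a4 E.B3 n0 n1 = α ^ 2 * γ1 + 2 * α * β * γ2)
    (c4 : le4 E.a4 E.B4 n1 = α ^ 2 * γ2) (hd : γ1 ^ 2 - 4 * γ0 * γ2 ≠ 0) :
    E.Λ t0 s z X Y = E.Λ t0 s z X (-Y) := by
  by_cases hY0 : Y = 0
  · rw [hY0, neg_zero]
  have hW := E.weier_line s t0 τ n0 n1 α β γ0 γ1 γ2 hτ c0 c1 c2 c3 c4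
  simp only [Algebra.algebraMap_self, RingHom.id_apply] at hW
  rw [← hX, ← hY] at hW
  set F := s ^ 3 * (-s ^ 2 - E.σ0) ^ 3 * τ * (α * τ + β) with hF
  have hF0 : F ≠ 0 := by
    intro h0
    rw [h0] at hW
    exact hY0 (pow_eq_zero_iff two_ne_zero |>.mp (by rw [hW]; ring))
  obtain ⟨w0, hw0⟩ : ∃ w0, Y = F * w0 := ⟨Y / F, by field_simp⟩
  have hw00 : w0 ≠ 0 := by rintro rfl; exact hY0 (by rw [hw0, mul_zero])
  have hwg : w0 ^ 2 = γ0 + γ1 * τ + γ2 * τ ^ 2 := by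
    apply mul_left_cancel₀ (pow_ne_zero 2 hF0)
    rw [← hW, hw0]; ring
  obtain ⟨κ, hκ⟩ : ∃ κ, γ1 + 2 * γ2 * τ = 2 * w0 * κ := ⟨(γ1 + 2 * γ2 * τ) / (2 * w0), by field_simp⟩
  have he : γ2 - κ ^ 2 ≠ 0 := by
    intro h0
    apply hd
    linear_combination (-4 * w0 ^ 2) * h0 + 4 * γ2 * hwg + (γ1 + 2 * γ2 * τ + 2 * w0 * κ) * hκ
  -- the rational curve over `Om`
  set den : Om := algebraMap ℂ Om (γ2 - κ ^ 2) - 2 * algebraMap ℂ Om κ * lam - lam ^ 2 with hden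
  have hden0 : den ≠ 0 := by
    obtain ⟨sp, hsp⟩ := nonConst_lam.exists_sp 0
    exact (((Tends.const (γ2 - κ ^ 2)).sub (((Tends.ofNat 2).mul (Tends.const κ)).mul hsp)).sub
      (hsp.pow 2)).ne_zero (by simpa using he)
  set θ : Om := 2 * algebraMap ℂ Om w0 * lam / den with hθ
  set w : Om := algebraMap ℂ Om w0 + (algebraMap ℂ Om κ + lam) * θ with hw
  set τ' : Om := algebraMap ℂ Om τ + θ with hτ'
  have hww : w ^ 2 = algebraMap ℂ Om γ0 + algebraMap ℂ Om γ1 * τ' + algebraMap ℂ Om γ2 * τ' ^ 2 := by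
    have e1 := congrArg (algebraMap ℂ Om) hwg
    have e2 := congrArg (algebraMap ℂ Om) hκ
    simp only [map_add, map_mul, map_pow, map_ofNat] at e1 e2
    have e3 : θ * den = 2 * algebraMap ℂ Om w0 * lam := by rw [hθ]; field_simp
    rw [hden, map_sub, map_pow] at e3
    rw [hw, hτ']
    linear_combination e1 - θ * e2 - θ * e3
  obtain ⟨S, hS⟩ := exists_sqrt (-(τ' + algebraMap ℂ Om E.σ1))
  have hτS : τ' = -S ^ 2 - algebraMap ℂ Om E.σ1 := by rw [hS]; ring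
  obtain ⟨Z, hZ⟩ := exists_sqrt ((E.at' (-S ^ 2)).ev (algebraMap ℂ Om t0))
  have hWO := E.weier_line S (algebraMap ℂ Om t0) τ' (algebraMap ℂ Om n0) (algebraMap ℂ Om n1)
    (algebraMap ℂ Om α) (algebraMap ℂ Om β) (algebraMap ℂ Om γ0) (algebraMap ℂ Om γ1)
    (algebraMap ℂ Om γ2) hτS
    (by simpa [le0, map_ofNat] using congrArg (algebraMap ℂ Om) c0)
    (by simpa [le1, map_ofNat] using congrArg (algebraMap ℂ Om) c1)
    (by simpa [le2, map_ofNat] using congrArg (algebraMap ℂ Om) c2)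
    (by simpa [le3, map_ofNat] using congrArg (algebraMap ℂ Om) c3)
    (by simpa [le4, map_ofNat] using congrArg (algebraMap ℂ Om) c4)
  set XO : Om := S ^ 2 * (-S ^ 2 - algebraMap ℂ Om E.σ0) ^ 2 * (algebraMap ℂ Om E.x
    + τ' * (algebraMap ℂ Om n0 + algebraMap ℂ Om n1 * τ'))
    - ((E.at' (-S ^ 2)).shift (algebraMap ℂ Om t0)).e2 / 3 with hXO
  set FO : Om := S ^ 3 * (-S ^ 2 - algebraMap ℂ Om E.σ0) ^ 3 * τ'
    * (algebraMap ℂ Om α * τ' + algebraMap ℂ Om β) with hFO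
  obtain ⟨δ1, f1, g1⟩ := E.famΛ t0 S Z XO (FO * w) hZ (by rw [hWO, mul_pow, hww])
  obtain ⟨δ2, f2, g2⟩ := E.famΛ t0 S Z XO (-(FO * w)) hZ (by rw [hWO, neg_sq, mul_pow, hww])
  have hY' : (-Y) ^ 2 = ((E.at' (-s ^ 2)).shift t0).W X := by rw [neg_sq, hY]
  have n1' := E.Λ_neg_z hs h1 hz hzz h2 hY hG
  have n2' := E.Λ_neg_z hs h1 hz hzz h2 hY' hG'
  rw [neg_neg] at n2'
  have key0 : ∀ (sp : Sp) (s1 z1 Y1 : ℂ), (s1 = s ∨ s1 = -s) → (z1 = z ∨ z1 = -z) →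
      (Y1 = Y ∨ Y1 = -Y) → Tends sp.v S s1 → Tends sp.v Z z1 → Tends sp.v XO X →
      Tends sp.v (FO * w) Y1 → δ1 sp - δ2 sp = E.Λ t0 s1 z1 X Y1 - E.Λ t0 s1 z1 X (-Y1) := by
    intro sp s1 z1 Y1 hs1 hz1 hY1 ts tz tX tY
    have e : s1 ^ 2 = s ^ 2 := by rcases hs1 with rfl | rfl <;> ring
    have a1 : s1 ≠ 0 := by rcases hs1 with rfl | rfl <;> simpa using hs
    have a2 : z1 ≠ 0 := by rcases hz1 with rfl | rfl <;> simpa using hz
    have a3 : ((E.at' (-s1 ^ 2)).shift t0).q2 z1 X ≠ 0 := by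
      rw [e]; rcases hz1 with rfl | rfl
      · exact h2
      · rw [Quart.q2_neg]; exact h2
    have a4 : ∀ Y2, (Y2 = Y ∨ Y2 = -Y) →
        E.Gd (-s1 ^ 2) (t0 + ((E.at' (-s1 ^ 2)).shift t0).pT z1 X Y2) := by
      intro Y2 hY2
      rw [e]
      rcases hz1 with rfl | rfl <;> rcases hY2 with rfl | rfl
      · exact hG
      · exact hG'
      · rw [Quart.pT_neg]; exact hG'
      · rw [Quart.pT_neg, neg_neg]; exact hG
    rw [g1 sp s1 z1 X Y1 ts tz tX tY a1 (by rw [e]; exact h1) a2 a3 (a4 _ hY1),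
      g2 sp s1 z1 X (-Y1) ts tz tX tY.neg a1 (by rw [e]; exact h1) a2 a3 (a4 _ (by
        rcases hY1 with rfl | rfl <;> simp))]
  have key : ∀ (sp : Sp) (ε : ℂ), (ε = 1 ∨ ε = -1) → Tends sp.v θ 0 → Tends sp.v w (ε * w0) →
      δ1 sp - δ2 sp = E.Λ t0 s z X (ε * Y) - E.Λ t0 s z X (-(ε * Y)) := by
    intro sp ε hε tθ tw
    have tτ : Tends sp.v τ' τ := by simpa using (Tends.const τ).add tθ
    have tS2 : Tends sp.v (S ^ 2) (s ^ 2) := by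
      rw [hS]
      exact ((tτ.add (Tends.const E.σ1)).neg).of_eq_right (by rw [hτ]; ring)
    have tG := (E.tends_at tS2.neg).shift (Tends.const t0)
    have tZ2 : Tends sp.v (Z ^ 2) (z ^ 2) := by
      rw [hZ, hzz]; exact (E.tends_at tS2.neg).ev (Tends.const t0)
    have tρ := tS2.neg.sub (Tends.const E.σ0)
    have tX : Tends sp.v XO X := by
      rw [hX]
      exact ((tS2.mul (tρ.pow 2)).mul ((Tends.const E.x).add (tτ.mul ((Tends.const n0).add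
        ((Tends.const n1).mul tτ))))).sub (tG.t2.div (Tends.ofNat 3) three_ne_zero)
    have tF : ∀ s1, Tends sp.v S s1 → Tends sp.v (FO * w)
        (s1 ^ 3 * (-s ^ 2 - E.σ0) ^ 3 * τ * (α * τ + β) * (ε * w0)) := fun s1 ts =>
      ((((ts.pow 3).mul (tρ.pow 3)).mul tτ).mul (((Tends.const α).mul tτ).add
        (Tends.const β))).mul tw
    rcases sp.tends_sqrt tS2 with ts | ts <;> rcases sp.tends_sqrt tZ2 with tz | tz
    · exact key0 sp s z (ε * Y) (Or.inl rfl) (Or.inl rfl) (by rcases hε with rfl | rfl <;> simp)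
        ts tz tX ((tF s ts).of_eq_right (by rw [hw0, hF]; ring))
    · rw [key0 sp s (-z) (ε * Y) (Or.inl rfl) (Or.inr rfl) (by rcases hε with rfl | rfl <;> simp)
        ts tz tX ((tF s ts).of_eq_right (by rw [hw0, hF]; ring))]
      rcases hε with rfl | rfl <;> simp only [one_mul, neg_mul, neg_neg, n1', n2'] <;> abel
    · rw [key0 sp (-s) z (-(ε * Y)) (Or.inr rfl) (Or.inl rfl)
        (by rcases hε with rfl | rfl <;> simp) ts tz tX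
        ((tF (-s) ts).of_eq_right (by rw [hw0, hF]; ring)), Λ_neg_s, Λ_neg_s, neg_neg]
      abel
    · rw [key0 sp (-s) (-z) (-(ε * Y)) (Or.inr rfl) (Or.inr rfl)
        (by rcases hε with rfl | rfl <;> simp) ts tz tX
        ((tF (-s) ts).of_eq_right (by rw [hw0, hF]; ring)), Λ_neg_s, Λ_neg_s, neg_neg]
      rcases hε with rfl | rfl <;> simp only [one_mul, neg_mul, neg_neg, n1', n2']
  have h := (f1.sub f2).eq_of_lam (α := E.Λ t0 s z X (1 * Y) - E.Λ t0 s z X (-(1 * Y)))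
    (β := E.Λ t0 s z X (-1 * Y) - E.Λ t0 s z X (-(-1 * Y))) (fun sp hl => by
      have tθ : Tends sp.v θ 0 := by
        have := (((Tends.ofNat 2).mul (Tends.const w0)).mul hl).div
          (((Tends.const (γ2 - κ ^ 2)).sub (((Tends.ofNat 2).mul (Tends.const κ)).mul hl)).sub
            (hl.pow 2)) (by simpa using he)
        exact this.of_eq_right (by simp)
      exact key sp 1 (Or.inl rfl) tθ
        (((Tends.const w0).add (((Tends.const κ).add hl).mul tθ)).of_eq_right (by ring)))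
    (fun sp hl => by
      have h0 := nonConst_lam.ne_zero
      have tl : Tends sp.v (lam * θ) (-(2 * w0)) := by
        have := ((Tends.ofNat 2).mul (Tends.const w0)).div
          ((((Tends.const (γ2 - κ ^ 2)).mul (hl.pow 2)).sub
            (((Tends.ofNat 2).mul (Tends.const κ)).mul hl)).sub Tends.one) (by simp)
        refine (this.of_eq_right (by simp [div_neg])).of_eq_left ?_
        have e : algebraMap ℂ Om (γ2 - κ ^ 2) * lam⁻¹ ^ 2 - 2 * algebraMap ℂ Om κ * lam⁻¹ - 1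
            = den / lam ^ 2 := by rw [hden]; field_simp
        rw [e, hθ]; field_simp
      have tθ : Tends sp.v θ 0 :=
        ((hl.mul tl).of_eq_right (by ring)).of_eq_left (by field_simp)
      refine key sp (-1) (Or.inr rfl) tθ ?_
      exact ((((Tends.const w0).add ((Tends.const κ).mul tθ)).add tl).of_eq_right
        (by ring)).of_eq_left (by rw [hw]; ring))
  simp only [one_mul, neg_mul, neg_neg] at h
  exact sub_eq_zero.mp (eq_zero_of_eq_neg' (by rw [neg_sub]; exact h))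

end EllData

end

end Pool.Agent.P.MP_7ebcb6_ag
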