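import Pool.Agent.P.MP_7ebcb6_ag.Defs

/-! Places of a function field and height one primes of the ring of integers. -/

open scoped WithZero IntermediateField Polynomial
open IsDedekindDomain WithZero

set_option linter.unusedSectionVars false

namespace Pool.Agent.P.MP_7ebcb6_ag

lemma val_eq_of_isEquiv {K : Type*} [Field K] {v w : Valuation K ℤᵐ⁰}
    (hv : Function.Surjective v) (hw : Function.Surjective w) (h : v.IsEquiv w) : v = w := by
  obtain ⟨π, hπ⟩ := hv (exp (-1))
  obtain ⟨ρ, hρ⟩ := hw (exp (-1))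
  have hπ0 : π ≠ 0 := by
    rintro rfl
    simp at hπ
    exact exp_ne_zero hπ.symm
  have hρ0 : ρ ≠ 0 := by
    rintro rfl
    simp at hρ
    exact exp_ne_zero hρ.symm
  have hwπ : w π = exp (-1) := by
    have h1 : w π < 1 := by
      rw [← h.lt_one_iff_lt_one, hπ, ← exp_zero, exp_lt_exp]; norm_num
    have h2 : v ρ < 1 := by
      rw [h.lt_one_iff_lt_one, hρ, ← exp_zero, exp_lt_exp]; norm_num
    have h3 : v ρ ≤ v π := by
      rw [hπ]
      have hne : v ρ ≠ 0 := by simpa using hρ0
      rw [← exp_log hne, ← exp_zero, exp_lt_exp] at h2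
      rw [← exp_log hne, exp_le_exp]; omega
    have h4 : w ρ ≤ w π := h.le_iff_le.mp h3
    have hne : w π ≠ 0 := by simpa using hπ0
    rw [hρ, ← exp_log hne, exp_le_exp] at h4
    rw [← exp_log hne, ← exp_zero, exp_lt_exp] at h1
    rw [← exp_log hne, exp_inj]; omega
  ext x
  rcases eq_or_ne x 0 with rfl | hx
  · simp
  have hne : v x ≠ 0 := by simpa using hx
  set n := log (v x) with hn
  have h1 : v (x * π ^ n) = 1 := by
    rw [map_mul, map_zpow₀, hπ, ← exp_zsmul, ← exp_log hne, ← hn, ← exp_add]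
    simp
  have h2 : w (x * π ^ n) = 1 := h.eq_one_iff_eq_one.mp h1
  rw [map_mul, map_zpow₀, hwπ, ← exp_zsmul] at h2
  rw [← exp_log hne, ← hn]
  have : w x = (exp (n • (-1 : ℤ)))⁻¹ := eq_inv_of_mul_eq_one_left h2
  rw [this, ← exp_neg]
  simp

lemma exists_eq_const_of_eval₂ {D : Type*} [CommRing D] [IsDomain D] (χ : ℂ →+* D) (a : D)
    {q : ℂ[X]} (hq : q ≠ 0) (h : q.eval₂ χ a = 0) : ∃ c, a = χ c := by
  have hs := (IsAlgClosed.splits q).eq_prod_roots
  have h2 : Polynomial.eval₂RingHom χ a q = 0 := h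
  rw [hs, map_mul, map_multiset_prod, mul_eq_zero, Multiset.prod_eq_zero_iff,
    Multiset.map_map] at h2
  rcases h2 with h2 | h2
  · simp [hq] at h2
  obtain ⟨c, -, hc⟩ := Multiset.mem_map.mp h2
  refine ⟨c, ?_⟩
  simpa [sub_eq_zero] using hc

/-- A proper valuation subring containing a Dedekind domain is the localisation at a prime. -/
lemma exists_heightOne_of_valuationSubring {R K : Type*} [CommRing R] [IsDedekindDomain R]
    [Field K] [Algebra R K] [IsFractionRing R K] (O : ValuationSubring K)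
    (hR : ∀ r : R, algebraMap R K r ∈ O) (hO : O ≠ ⊤) :
    ∃ P : HeightOneSpectrum R, (P.valuation K).valuationSubring = O := by
  let φ : R →+* O := (algebraMap R K).codRestrict O.toSubring hR
  let I : Ideal R := (IsLocalRing.maximalIdeal O).comap φ
  have hI : I.IsPrime := Ideal.comap_isPrime φ _
  have hmem : ∀ r : R, r ∉ I → (algebraMap R K r)⁻¹ ∈ O := by
    intro r hr
    have : IsUnit (φ r) := by
      by_contra hu
      exact hr hu
    have h1 : O.valuation (algebraMap R K r) = 1 := (O.valuation_eq_one_iff (φ r)).mp this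
    rw [← O.valuation_le_one_iff, map_inv₀, h1]; simp
  have hI0 : I ≠ ⊥ := by
    intro h0
    apply hO
    rw [eq_top_iff]
    intro x _
    obtain ⟨a, b, hb, rfl⟩ := IsFractionRing.div_surjective (A := R) x
    rw [div_eq_mul_inv]
    refine O.mul_mem _ _ (hR a) (hmem b ?_)
    rw [h0]
    simpa using nonZeroDivisors.ne_zero hb
  let P : HeightOneSpectrum R := ⟨I, hI, hI0⟩
  refine ⟨P, ?_⟩
  rw [← HeightOneSpectrum.valuationSubringAtPrime_eq_valuationSubring]
  refine ValuationSubring.eq_of_le_of_ne_top _ ?_ hO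
  rintro x ⟨a, s, hs, rfl⟩
  exact O.mul_mem _ _ (hR a) (hmem s hs)

section core

variable {K : Type} [Field K] [Algebra ℂ K] [Algebra ℂ[X] K] [Algebra (RatFunc ℂ) K]
  [IsScalarTower ℂ[X] (RatFunc ℂ) K] [IsScalarTower ℂ ℂ[X] K] [FunctionField ℂ K]

open FunctionField

lemma ringOfIntegers_mem (O : ValuationSubring K) (hc : ∀ c : ℂ, algebraMap ℂ K c ∈ O)
    (hx : algebraMap ℂ[X] K Polynomial.X ∈ O) (r : ringOfIntegers ℂ K) :
    algebraMap (ringOfIntegers ℂ K) K r ∈ O := by
  have hpoly : ∀ p : ℂ[X], algebraMap ℂ[X] K p ∈ O := by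
    intro p
    induction p using Polynomial.induction_on with
    | C a =>
      have : algebraMap ℂ[X] K (Polynomial.C a) = algebraMap ℂ K a :=
        (IsScalarTower.algebraMap_apply ℂ ℂ[X] K a).symm
      rw [this]; exact hc a
    | add p q hp hq => rw [map_add]; exact O.add_mem _ _ hp hq
    | monomial n a h => rw [pow_succ, ← mul_assoc, map_mul]; exact O.mul_mem _ _ h hx
  have hint : IsIntegral ℂ[X] (r : K) := r.2
  let φ : ℂ[X] →+* O := (algebraMap ℂ[X] K).codRestrict O.toSubring hpoly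
  have hint' : IsIntegral O (r : K) := by
    obtain ⟨p, hp, hp'⟩ := hint
    refine ⟨p.map φ, hp.map φ, ?_⟩
    rw [Polynomial.eval₂_map]
    exact hp'
  obtain ⟨y, hy⟩ := IsIntegrallyClosed.isIntegral_iff.mp hint'
  have : (algebraMap (ringOfIntegers ℂ K) K r) = (y : K) := hy.symm
  rw [this]; exact y.2

lemma isPlace_valuation (P : HeightOneSpectrum (ringOfIntegers ℂ K)) :
    IsPlace (P.valuation K) := by
  refine ⟨P.valuation_surjective K, fun c hc => ?_⟩
  have key : ∀ c : ℂ, P.valuation K (algebraMap ℂ K c) ≤ 1 := by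
    intro c
    have : algebraMap ℂ K c = algebraMap (ringOfIntegers ℂ K) K
        (algebraMap ℂ[X] (ringOfIntegers ℂ K) (Polynomial.C c)) := by
      rw [← IsScalarTower.algebraMap_apply]
      exact IsScalarTower.algebraMap_apply ℂ ℂ[X] K c
    rw [this]; exact P.valuation_le_one _
  have h1 := key c
  have h2 := key c⁻¹
  rw [map_inv₀, map_inv₀] at h2
  have h0 : P.valuation K (algebraMap ℂ K c) ≠ 0 := by simpa using hc
  exact le_antisymm h1 ((inv_le_one₀ (zero_lt_iff.mpr h0)).mp h2)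

lemma IsPlace.const_le_one {L : Type} [Field L] [Algebra ℂ L] {w : Valuation L ℤᵐ⁰}
    (hw : IsPlace w) (c : ℂ) : w (algebraMap ℂ L c) ≤ 1 := by
  rcases eq_or_ne c 0 with rfl | hc
  · simp
  · exact (hw.2 c hc).le

lemma IsPlace.ne_top {L : Type} [Field L] [Algebra ℂ L] {w : Valuation L ℤᵐ⁰}
    (hw : IsPlace w) : w.valuationSubring ≠ ⊤ := by
  intro h
  obtain ⟨x, hx⟩ := hw.1 (exp 1)
  have : x ∈ w.valuationSubring := by rw [h]; trivial
  rw [Valuation.mem_valuationSubring_iff, hx, ← exp_zero, exp_le_exp] at this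
  omega

lemma exists_heightOne_of_isPlace {w : Valuation K ℤᵐ⁰} (hw : IsPlace w)
    (hx : w (algebraMap ℂ[X] K Polynomial.X) ≤ 1) :
    ∃ P : HeightOneSpectrum (ringOfIntegers ℂ K), P.valuation K = w := by
  obtain ⟨P, hP⟩ := exists_heightOne_of_valuationSubring (R := ringOfIntegers ℂ K)
    w.valuationSubring (ringOfIntegers_mem _ (fun c => hw.const_le_one c) hx) hw.ne_top
  exact ⟨P, val_eq_of_isEquiv (P.valuation_surjective K) hw.1
    ((Valuation.isEquiv_iff_valuationSubring _ _).mpr hP)⟩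

lemma valuation_injective : Function.Injective
    (fun P : HeightOneSpectrum (ringOfIntegers ℂ K) => P.valuation K) := by
  intro P Q h
  exact HeightOneSpectrum.eq_of_valuation_isEquiv_valuation (K := K) (Valuation.IsEquiv.of_eq h)

lemma exists_const_sub_mem (P : Ideal (ringOfIntegers ℂ K)) [P.IsPrime]
    (hX : algebraMap ℂ[X] (ringOfIntegers ℂ K) Polynomial.X ∈ P) (r : ringOfIntegers ℂ K) :
    ∃ c : ℂ, r - algebraMap ℂ[X] (ringOfIntegers ℂ K) (Polynomial.C c) ∈ P := by
  obtain ⟨q, hq, hq'⟩ : IsIntegral ℂ[X] r := Algebra.IsIntegral.isIntegral r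
  let ψ : ℂ[X] →+* (ringOfIntegers ℂ K) ⧸ P :=
    (Ideal.Quotient.mk P).comp (algebraMap ℂ[X] (ringOfIntegers ℂ K))
  let χ : ℂ →+* (ringOfIntegers ℂ K) ⧸ P := ψ.comp Polynomial.C
  have hψ : ψ = χ.comp (Polynomial.evalRingHom 0) := by
    apply Polynomial.ringHom_ext
    · intro a; simp [χ]
    · simp only [RingHom.comp_apply, Polynomial.coe_evalRingHom, Polynomial.eval_X, map_zero, ψ]
      exact Ideal.Quotient.eq_zero_iff_mem.mpr hX
  have h1 : (q.map (Polynomial.evalRingHom 0)).eval₂ χ (Ideal.Quotient.mk P r) = 0 := by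
    rw [Polynomial.eval₂_map, ← hψ]
    have := congrArg (Ideal.Quotient.mk P) hq'
    rw [Polynomial.hom_eval₂, map_zero] at this
    exact this
  obtain ⟨c, hc⟩ := exists_eq_const_of_eval₂ (D := (ringOfIntegers ℂ K) ⧸ P) χ
    (Ideal.Quotient.mk P r) (hq.map (Polynomial.evalRingHom 0)).ne_zero h1
  refine ⟨c, ?_⟩
  rw [← Ideal.Quotient.eq_zero_iff_mem, map_sub]
  rw [hc]; simp [χ, ψ]

/-- The fundamental identity for the zeros of the distinguished transcendental element. -/
lemma sum_ord_X : ∃ S : Finset (Valuation K ℤᵐ⁰),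
    (∀ w, w ∈ S ↔ IsPlace w ∧ w (algebraMap ℂ[X] K Polynomial.X) < 1) ∧
    ∑ w ∈ S, ord w (algebraMap ℂ[X] K Polynomial.X) = Module.finrank (RatFunc ℂ) K := by
  classical
  let A := ringOfIntegers ℂ K
  let p : Ideal ℂ[X] := Ideal.span {Polynomial.X}
  have hp0 : p ≠ ⊥ := by simp [p]
  have hpp : p.IsPrime := (Ideal.span_singleton_prime Polynomial.X_ne_zero).mpr Polynomial.prime_X
  have hpm : p.IsMaximal := hpp.isMaximal hp0
  have hfin : Module.Finite ℂ[X] A := inferInstance
  have hinj : Function.Injective (algebraMap ℂ[X] A) := ringOfIntegers.algebraMap_injective ℂ K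
  have : FaithfulSMul ℂ[X] A := (faithfulSMul_iff_algebraMap_injective _ _).mpr hinj
  have key := Ideal.sum_ramification_inertia A (RatFunc ℂ) K hp0
  let v : HeightOneSpectrum ℂ[X] := ⟨p, hpp, hp0⟩
  let T := IsDedekindDomain.primesOverFinset p A
  have hT : ∀ P ∈ T, P.IsPrime ∧ P.LiesOver p := fun P hP =>
    (IsDedekindDomain.mem_primesOverFinset_iff hp0 _).mp hP
  have hT0 : ∀ P ∈ T, P ≠ ⊥ := fun P hP => by
    have := (hT P hP).2
    exact Ideal.ne_bot_of_liesOver_of_ne_bot hp0 P
  let F : T → Valuation K ℤᵐ⁰ := fun P =>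
    (⟨P.1, (hT P.1 P.2).1, hT0 P.1 P.2⟩ : HeightOneSpectrum A).valuation K
  have hF : Function.Injective F := by
    intro P Q h
    have := valuation_injective h
    exact Subtype.ext (congrArg HeightOneSpectrum.asIdeal this)
  have hxA : algebraMap ℂ[X] K Polynomial.X = algebraMap A K (algebraMap ℂ[X] A Polynomial.X) :=
    IsScalarTower.algebraMap_apply _ _ _ _
  refine ⟨Finset.univ.image F, ?_, ?_⟩
  · intro w
    simp only [Finset.mem_image, Finset.mem_univ, true_and]
    constructor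
    · rintro ⟨P, rfl⟩
      refine ⟨isPlace_valuation _, ?_⟩
      rw [hxA]
      refine (HeightOneSpectrum.valuation_lt_one_iff_mem _ _).mpr ?_
      have h := (hT P.1 P.2).2.over
      have : Polynomial.X ∈ p := Ideal.subset_span rfl
      rw [h] at this
      exact this
    · rintro ⟨hw, hx⟩
      obtain ⟨P, rfl⟩ := exists_heightOne_of_isPlace hw hx.le
      rw [hxA] at hx
      have hx' := (HeightOneSpectrum.valuation_lt_one_iff_mem _ _).mp hx
      have hle : p ≤ P.asIdeal.comap (algebraMap ℂ[X] A) := by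
        rw [Ideal.span_le]; rintro _ rfl; exact hx'
      have hne : P.asIdeal.comap (algebraMap ℂ[X] A) ≠ ⊤ := Ideal.comap_ne_top _ P.isPrime.ne_top
      have hPT : P.asIdeal ∈ T :=
        (IsDedekindDomain.mem_primesOverFinset_iff hp0 _).mpr ⟨P.isPrime, ⟨hpm.eq_of_le hne hle⟩⟩
      exact ⟨⟨P.asIdeal, hPT⟩, rfl⟩
  · rw [Finset.sum_image (fun P _ Q _ h => hF h), ← key, Nat.cast_sum, ← Finset.sum_coe_sort T]
    refine Finset.sum_congr rfl fun P _ => ?_
    have hP := (hT P.1 P.2).1
    have hL := (hT P.1 P.2).2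
    have hXP : algebraMap ℂ[X] A Polynomial.X ∈ P.1 := by
      have h := hL.over
      have : Polynomial.X ∈ p := Ideal.subset_span rfl
      rw [h] at this
      exact this
    have hf : Ideal.inertiaDeg' p P.1 = 1 := by
      rw [Ideal.inertiaDeg'_algebraMap]
      let _ : Field (ℂ[X] ⧸ p) := Ideal.Quotient.field p
      rw [Algebra.finrank_eq_one_iff_bijective_algebraMap]
      refine ⟨RingHom.injective _, fun y => ?_⟩
      obtain ⟨r, rfl⟩ := Ideal.Quotient.mk_surjective y
      obtain ⟨c, hc⟩ := exists_const_sub_mem P.1 hXP r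
      refine ⟨Ideal.Quotient.mk p (Polynomial.C c), ?_⟩
      rw [Ideal.Quotient.algebraMap_mk_of_liesOver, eq_comm, Ideal.Quotient.eq]
      exact hc
    let W : HeightOneSpectrum A := ⟨P.1, hP, hT0 P.1 P.2⟩
    have : W.asIdeal.LiesOver v.asIdeal := hL
    have h1 := HeightOneSpectrum.intValuation_liesOver v W Polynomial.X
    rw [HeightOneSpectrum.intValuation_singleton v Polynomial.X_ne_zero rfl] at h1
    rw [hf, mul_one, ord, hxA]
    change -log (W.valuation K _) = _
    rw [HeightOneSpectrum.valuation_of_algebraMap, ← h1, log_pow, log_exp]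
    simp [v, W]

end core

end Pool.Agent.P.MP_7ebcb6_ag
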