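import Pool.Agent.P.MP_7ebcb6_ag.Approach
import Pool.Agent.P.MP_7ebcb6_ag.Geom3

/-! The equations in the chart `x₁ = 1` and the base locus of the forms. -/

open scoped LinearAlgebra.Projectivization Polynomial
open MvPolynomial

namespace Pool.Agent.P.MP_7ebcb6_ag

noncomputable section

/-- Degrees of the variables. -/
def dg : Fin 5 → ℕ := ![1, 1, 1, 2, 2]

section ring
variable {R : Type} [CommRing R] [Algebra ℂ R] (f : EvenQuartic)

lemma q₀_scale (c : R) (p : Fin 5 → R) :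
    aeval (fun i => c ^ dg i * p i) (q₀ f) = c ^ 4 * aeval p (q₀ f) := by
  simp [q₀, EvenQuartic.poly, dg]; ring

lemma q₂_scale (c : R) (p : Fin 5 → R) :
    aeval (fun i => c ^ dg i * p i) (q₂ f) = c ^ 4 * aeval p (q₂ f) := by
  simp [q₂, EvenQuartic.poly, dg]; ring

lemma q₀_chart (x t y w : R) : aeval ![1, x, t, y, w] (q₀ f) = y ^ 2 + x * w + Fq f t (x ^ 2) := by
  simp [q₀, EvenQuartic.poly, Fq]; ring

lemma q₂_chart (x t y w : R) :
    aeval ![1, x, t, y, w] (q₂ f) = w ^ 2 + x * t * y + Fq f t (x ^ 2) := by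
  simp [q₂, EvenQuartic.poly, Fq]; ring

lemma N_scale {P : MvPolynomial (Fin 5) ℂ} {d : ℕ × ZMod 2} (h : IsWeightedHomogeneous wt P d)
    (c : R) (p : Fin 5 → R) : aeval (fun i => c ^ dg i * p i) P = c ^ d.1 * aeval p P := by
  rw [← aeval_scale (fun a : ℕ × ZMod 2 => c ^ a.1) (pow_zero c) (fun a b => pow_add c _ _) h p]
  congr 2
  ext i
  fin_cases i <;> rfl

lemma N_sign {P : MvPolynomial (Fin 5) ℂ} {d : ℕ × ZMod 2} (h : IsWeightedHomogeneous wt P d)
    (x t y w : ℂ) : eval ![1, -x, t, -y, -w] P = (-1) ^ d.2.val * eval ![1, x, t, y, w] P := by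
  have := aeval_scale (fun a : ℕ × ZMod 2 => (-1 : ℂ) ^ a.2.val) (by simp) (fun a b => by
    rw [Prod.snd_add, ZMod.val_add, ← pow_add, ← neg_one_pow_eq_pow_mod_two]) h ![1, x, t, y, w]
  rw [← aeval_eq_eval, ← aeval_eq_eval, ← this]
  congr 2
  ext i
  fin_cases i <;> simp [wt, ZMod.val_one]

end ring

/-- The point of the surface with coordinates `t, x, y`. -/
def pt {R : Type} [Field R] [Algebra ℂ R] (f : EvenQuartic) (t x y : R) : Fin 5 → R :=
  ![1, x, t, y, -(y ^ 2 + Fq f t (x ^ 2)) / x]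

lemma pt_on {R : Type} [Field R] [Algebra ℂ R] (f g : EvenQuartic) {t x y : R} (hx : x ≠ 0)
    (h : Rq f g t x y = 0) : aeval (pt f t x y) (q₀ f) = 0 ∧ aeval (pt f t x y) (q₂ g) = 0 := by
  unfold pt
  rw [q₀_chart, q₂_chart]
  unfold Rq at h
  constructor
  · field_simp; ring
  · field_simp; linear_combination h

lemma eq_pt {R : Type} [Field R] [Algebra ℂ R] (f g : EvenQuartic) {t x y w : R} (hx : x ≠ 0)
    (h0 : aeval ![1, x, t, y, w] (q₀ f) = 0) (h2 : aeval ![1, x, t, y, w] (q₂ g) = 0) :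
    Rq f g t x y = 0 ∧ ![1, x, t, y, w] = pt f t x y := by
  rw [q₀_chart] at h0
  rw [q₂_chart] at h2
  have e : w = -(y ^ 2 + Fq f t (x ^ 2)) / x := by field_simp; linear_combination h0
  refine ⟨?_, by rw [e, pt]⟩
  unfold Rq
  linear_combination (y ^ 2 + Fq f t (x ^ 2) - x * w) * h0 + x ^ 2 * h2

lemma pt_neg (f : EvenQuartic) (t x y : ℂ) : pt f t (-x) (-y)
    = ![1, -x, t, -y, -(-(y ^ 2 + Fq f t (x ^ 2)) / x)] := by
  simp only [pt, neg_sq, div_neg]

lemma tends_pt (f : EvenQuartic) {sp : Sp} {T X Y : Om} {t x y : ℂ} (hT : Tends sp.v T t)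
    (hX : Tends sp.v X x) (hY : Tends sp.v Y y) (hx : x ≠ 0) (i : Fin 5) :
    Tends sp.v (pt f T X Y i) (pt f t x y i) := by
  fin_cases i
  exacts [Tends.one, hX, hT, hY, ((hY.pow 2).add (tends_Fq f hT (hX.pow 2))).neg.div hX hx]

lemma isIntegral_of_quartic {B A : Type} [CommRing B] [Nontrivial B] [CommRing A] [Algebra B A]
    {y : A} (a b c : B)
    (h : y ^ 4 + algebraMap B A a * y ^ 2 + algebraMap B A b * y + algebraMap B A c = 0) :
    IsIntegral B y := by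
  exact ⟨Polynomial.X ^ 4 + Polynomial.C a * Polynomial.X ^ 2 + Polynomial.C b * Polynomial.X
    + Polynomial.C c, by monicity!, by simpa [Polynomial.eval₂_add] using h⟩

lemma exists_base_poly (f g : EvenQuartic) (hprime : (Ideal.span {q₀ f, q₂ g}).IsPrime)
    {F : MvPolynomial (Fin 5) ℂ} (hF : F ∉ Ideal.span {q₀ f, q₂ g}) :
    ∃ r : MvPolynomial (Fin 3) ℂ, r ≠ 0 ∧ ∀ p : Fin 5 → ℂ, eval p (q₀ f) = 0 → eval p (q₂ g) = 0 →
      eval p F = 0 → eval ![p 0, p 1, p 2] r = 0 := by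
  set I := Ideal.span {q₀ f, q₂ g} with hI
  let A := MvPolynomial (Fin 5) ℂ ⧸ I
  let π : MvPolynomial (Fin 5) ℂ →ₐ[ℂ] A := Ideal.Quotient.mkₐ ℂ I
  let φ : MvPolynomial (Fin 3) ℂ →ₐ[ℂ] A := aeval ![π (X 0), π (X 1), π (X 2)]
  let : Algebra (MvPolynomial (Fin 3) ℂ) A := φ.toRingHom.toAlgebra
  have hφ : ∀ b, algebraMap (MvPolynomial (Fin 3) ℂ) A b = φ b := fun _ => rfl
  have hp : ∀ e : EvenQuartic, φ (aeval ![X 0, X 1, X 2, 0, 0] e.poly) = π e.poly := by
    intro e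
    simp [EvenQuartic.poly, φ]
  have r0 : π (X 3) ^ 2 + π (X 0) * π (X 1) * π (X 4) + π f.poly = 0 := by
    have : π (q₀ f) = 0 := Ideal.Quotient.eq_zero_iff_mem.mpr (Ideal.subset_span (by simp))
    simpa only [q₀, map_add, map_mul, map_pow] using this
  have r2 : π (X 4) ^ 2 + π (X 1) * π (X 2) * π (X 3) + π g.poly = 0 := by
    have : π (q₂ g) = 0 := Ideal.Quotient.eq_zero_iff_mem.mpr (Ideal.subset_span (by simp))
    simpa only [q₂, map_add, map_mul, map_pow] using this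
  have x0 : φ (X 0) = π (X 0) := by simp [φ]
  have x1 : φ (X 1) = π (X 1) := by simp [φ]
  have x2 : φ (X 2) = π (X 2) := by simp [φ]
  have hX : ∀ i, IsIntegral (MvPolynomial (Fin 3) ℂ) (π (X i)) := by
    intro i
    fin_cases i
    · exact x0 ▸ isIntegral_algebraMap
    · exact x1 ▸ isIntegral_algebraMap
    · exact x2 ▸ isIntegral_algebraMap
    · refine isIntegral_of_quartic (2 * aeval ![X 0, X 1, X 2, 0, 0] f.poly)
        (X 0 ^ 2 * X 1 ^ 3 * X 2) (aeval ![X 0, X 1, X 2, 0, 0] f.poly ^ 2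
          + X 0 ^ 2 * X 1 ^ 2 * aeval ![X 0, X 1, X 2, 0, 0] g.poly) ?_
      simp only [hφ, map_mul, map_add, map_pow, map_ofNat, hp, x0, x1, x2]
      change π (X 3) ^ 4 + _ * π (X 3) ^ 2 + _ * π (X 3) + _ = 0
      linear_combination (π (X 3) ^ 2 + π f.poly - π (X 0) * π (X 1) * π (X 4)) * r0
        + π (X 0) ^ 2 * π (X 1) ^ 2 * r2
    · refine isIntegral_of_quartic (2 * aeval ![X 0, X 1, X 2, 0, 0] g.poly)
        (X 1 ^ 3 * X 2 ^ 2 * X 0) (aeval ![X 0, X 1, X 2, 0, 0] g.poly ^ 2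
          + X 1 ^ 2 * X 2 ^ 2 * aeval ![X 0, X 1, X 2, 0, 0] f.poly) ?_
      simp only [hφ, map_mul, map_add, map_pow, map_ofNat, hp, x0, x1, x2]
      change π (X 4) ^ 4 + _ * π (X 4) ^ 2 + _ * π (X 4) + _ = 0
      linear_combination (π (X 4) ^ 2 + π g.poly - π (X 1) * π (X 2) * π (X 3)) * r2
        + π (X 1) ^ 2 * π (X 2) ^ 2 * r0
  have hint : ∀ G, IsIntegral (MvPolynomial (Fin 3) ℂ) (π G) := by
    intro G
    induction G using MvPolynomial.induction_on with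
    | C c =>
      have : π (C c) = φ (C c) := (π.commutes c).trans (φ.commutes c).symm
      exact this ▸ isIntegral_algebraMap
    | add p q hp hq => rw [map_add]; exact hp.add hq
    | mul_X p i hp => rw [map_mul]; exact hp.mul (hX i)
  obtain ⟨r, hr, s, hs⟩ := (hint F).isAlgebraic.exists_nonzero_dvd
    (mem_nonZeroDivisors_of_ne_zero (mt Ideal.Quotient.eq_zero_iff_mem.mp hF))
  refine ⟨r, hr, fun p h0 h2 h3 => ?_⟩
  let e : A →ₐ[ℂ] ℂ := Ideal.Quotient.liftₐ I (aeval p) fun G hG =>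
    aeval_eq_zero_of_mem (R := ℂ) h0 h2 hG
  have he : ∀ G, e (π G) = eval p G := fun _ => rfl
  have e2 : e.comp φ = aeval ![p 0, p 1, p 2] := by
    ext i
    fin_cases i <;> simp [φ, he]
  have := congrArg e hs
  rw [map_mul, he, h3, zero_mul, hφ, ← AlgHom.comp_apply, e2] at this
  exact this

lemma exists_chart_poly (f g : EvenQuartic) (hprime : (Ideal.span {q₀ f, q₂ g}).IsPrime)
    {F : MvPolynomial (Fin 5) ℂ} (hF : F ∉ Ideal.span {q₀ f, q₂ g}) {d : ℕ × ZMod 2}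
    (hd : IsWeightedHomogeneous wt F d) : ∃ h : MvPolynomial (Fin 2) ℂ,
      (∃ t x, eval ![t, x] h ≠ 0) ∧ ∀ t x, eval ![t, x] h ≠ 0 → x ≠ 0 ∧
        ∀ y, Rq f g t x y = 0 → eval (pt f t x y) F ≠ 0 := by
  obtain ⟨r, hr, hv⟩ := exists_base_poly f g hprime hF
  obtain ⟨v, hv0⟩ : ∃ v, eval v (X 0 * X 1 * r) ≠ 0 := by
    by_contra h
    push Not at h
    exact mul_ne_zero (mul_ne_zero (X_ne_zero 0) (X_ne_zero 1)) hr
      (MvPolynomial.funext fun v => by rw [h, map_zero])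
  simp only [map_mul, eval_X, ne_eq, mul_eq_zero, not_or] at hv0
  obtain ⟨⟨h0, h1⟩, h2⟩ := hv0
  have e : ∀ t x : ℂ, eval ![t, x] (X 1 * aeval ![C (v 0), C (v 0) * X 1, C (v 0) * X 0] r)
      = x * eval ![v 0, v 0 * x, v 0 * t] r := by
    intro t x
    rw [map_mul, ← aeval_eq_eval, ← aeval_eq_eval, comp_aeval_apply]
    congr 1
    · simp
    · congr 2
      ext i
      fin_cases i <;> simp
  refine ⟨X 1 * aeval ![C (v 0), C (v 0) * X 1, C (v 0) * X 0] r, ⟨v 2 / v 0, v 1 / v 0, ?_⟩,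
    fun t x h => ?_⟩
  · rw [e, mul_div_cancel₀ _ h0, mul_div_cancel₀ _ h0]
    refine mul_ne_zero (div_ne_zero h1 h0) fun h => h2 ?_
    rw [← h]
    congr 2
    ext i
    fin_cases i <;> rfl
  · rw [e] at h
    refine ⟨left_ne_zero_of_mul h, fun y hy hz => right_ne_zero_of_mul h ?_⟩
    obtain ⟨k0, k2⟩ := pt_on f g (left_ne_zero_of_mul h) hy
    have := hv (fun i => v 0 ^ dg i * pt f t x y i)
      ((q₀_scale f _ _).trans (by rw [k0, mul_zero])) ((q₂_scale g _ _).trans (by rw [k2, mul_zero]))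
      ((N_scale hd _ _).trans (mul_eq_zero_of_right _ hz))
    simpa [dg, pt] using this

end

end Pool.Agent.P.MP_7ebcb6_ag
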