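import Pool.Agent.P.MP_7ebcb6_ag.Main1

/-! A criterion for the two equations to generate a prime ideal. -/

open scoped Polynomial

namespace Pool.Agent.P.MP_7ebcb6_ag

noncomputable section

open Polynomial

lemma irreducible_quartic {B : Type} [CommRing B] [IsDomain B] {p e c : B}
    (h1 : ∀ y : B, y ^ 4 + p * y ^ 2 + e * y + c ≠ 0)
    (h2 : ∀ a : B, a ^ 6 + 2 * p * a ^ 4 + (p ^ 2 - 4 * c) * a ^ 2 - e ^ 2 ≠ 0) :
    Irreducible (X ^ 4 + C p * X ^ 2 + C e * X + C c : B[X]) := by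
  have hm : (X ^ 4 + C p * X ^ 2 + C e * X + C c : B[X]).Monic := by monicity!
  have hd : (X ^ 4 + C p * X ^ 2 + C e * X + C c : B[X]).natDegree = 4 := by compute_degree!
  rw [hm.irreducible_iff_natDegree', hd]
  refine ⟨fun h => by rw [h] at hd; simp at hd, fun u v hu hv huv hmem => ?_⟩
  have hsum := hu.natDegree_mul hv
  rw [huv, hd] at hsum
  rw [Finset.mem_Ioc] at hmem
  obtain h | h : v.natDegree = 1 ∨ v.natDegree = 2 := by omega
  · obtain ⟨r, rfl⟩ := isMonicOfDegree_one_iff.mp ⟨h, hv⟩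
    have := congrArg (eval (-r)) huv
    simp only [eval_mul, eval_add, eval_X, eval_C, eval_pow, neg_add_cancel, mul_zero] at this
    exact h1 _ this.symm
  · obtain ⟨a, b, rfl⟩ := isMonicOfDegree_two_iff.mp ⟨h, hv⟩
    obtain ⟨a', b', rfl⟩ := isMonicOfDegree_two_iff.mp ⟨show u.natDegree = 2 by omega, hu⟩
    have e : (X ^ 4 + C (a + a') * X ^ 3 + C (b + b' + a * a') * X ^ 2 + C (a * b' + a' * b) * X
        + C (b * b') : B[X]) = X ^ 4 + C p * X ^ 2 + C e * X + C c := by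
      rw [← huv]; simp only [map_add, map_mul]; ring
    have c0 := congrArg (coeff · 0) e
    have c1 := congrArg (coeff · 1) e
    have c2 := congrArg (coeff · 2) e
    have c3 := congrArg (coeff · 3) e
    simp only [coeff_add, coeff_C_mul, coeff_X_pow, coeff_X, coeff_C] at c0 c1 c2 c3
    norm_num at c0 c1 c2 c3
    obtain rfl : a' = -a := by linear_combination c3
    apply h2 a
    rw [← c0, ← c1, ← c2]; ring

lemma not_sq_of_simple {af y : ℂ[X]} {r k : ℂ} (h0 : af.eval r = 0)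
    (h1 : (derivative af).eval r ≠ 0) (hk : k ≠ 0) : y ^ 2 + C k * af ≠ 0 := by
  intro h
  have e0 := congrArg (eval r) h
  have e1 := congrArg (fun q => eval r (derivative q)) h
  simp [h0] at e0
  simp [derivative_pow, e0, hk, h1] at e1

lemma resolvent_ne {F G A : ℂ[X][X]} {r r' : ℂ} (h0 : (F.eval 0).eval r = 0)
    (h1 : (derivative (F.eval 0)).eval r ≠ 0) (h2 : (G.eval 0).eval r ≠ 0) (h3 : r' ≠ 0)
    (h4 : (G.eval 0).eval r' = 0) :
    A ^ 6 + 4 * F * A ^ 4 - 4 * X ^ 2 * G * A ^ 2 - (X ^ 3 * C X) ^ 2 ≠ 0 := by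
  intro h
  have e0 : A.eval 0 ^ 4 * (A.eval 0 ^ 2 + C 4 * F.eval 0) = 0 := by
    have := congrArg (eval 0) h
    simp at this
    rw [map_ofNat]; linear_combination this
  obtain ⟨A1, rfl⟩ := X_dvd_iff.mpr ((coeff_zero_eq_eval_zero A).trans (pow_eq_zero_iff'.mp
    ((mul_eq_zero.mp e0).resolve_right (not_sq_of_simple h0 h1 (by norm_num)))).1)
  have k1 : X ^ 2 * A1 ^ 6 + 4 * F * A1 ^ 4 - 4 * G * A1 ^ 2 - X ^ 2 * C X ^ 2 = 0 := by
    apply mul_left_cancel₀ (pow_ne_zero 4 X_ne_zero)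
    linear_combination h
  have e1 : A1.eval 0 ^ 2 * (4 * (F.eval 0 * A1.eval 0 ^ 2 - G.eval 0)) = 0 := by
    have := congrArg (eval 0) k1
    simp at this
    linear_combination this
  obtain ⟨A2, rfl⟩ := X_dvd_iff.mpr ((coeff_zero_eq_eval_zero A1).trans (pow_eq_zero_iff'.mp
    ((mul_eq_zero.mp e1).resolve_right fun h => by
      have := congrArg (eval r) h
      simp [h0, h2] at this)).1)
  have k2 : X ^ 6 * A2 ^ 6 + 4 * F * X ^ 2 * A2 ^ 4 - 4 * G * A2 ^ 2 - C X ^ 2 = 0 := by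
    apply mul_left_cancel₀ (pow_ne_zero 2 X_ne_zero)
    linear_combination k1
  have := congrArg (fun q => eval r' (eval 0 q)) k2
  simp [h4, h3] at this

/-- The quartic form as a polynomial in three variables. -/
def EvenQuartic.poly3 (f : EvenQuartic) : MvPolynomial (Fin 3) ℂ :=
  MvPolynomial.aeval ![MvPolynomial.X 0, MvPolynomial.X 1, MvPolynomial.X 2, 0, 0] f.poly

lemma aeval_poly3 {R : Type} [CommRing R] [Algebra ℂ R] (f : EvenQuartic) (x t : R) :
    MvPolynomial.aeval ![1, x, t] f.poly3 = Fq f t (x ^ 2) := by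
  simp [EvenQuartic.poly3, EvenQuartic.poly, Fq]; ring

/-- The quartic equation of `y₁`. -/
def Ry (f g : EvenQuartic) : (MvPolynomial (Fin 3) ℂ)[X] :=
  X ^ 4 + C (2 * f.poly3) * X ^ 2
    + C (MvPolynomial.X 0 ^ 2 * MvPolynomial.X 1 ^ 3 * MvPolynomial.X 2) * X
    + C (f.poly3 ^ 2 + MvPolynomial.X 0 ^ 2 * MvPolynomial.X 1 ^ 2 * g.poly3)

lemma irreducible_Ry (f g : EvenQuartic) {r r' : ℂ} (h0 : (Fq f (X : ℂ[X]) 0).eval r = 0)
    (h1 : (derivative (Fq f (X : ℂ[X]) 0)).eval r ≠ 0) (h2 : (Fq g (X : ℂ[X]) 0).eval r ≠ 0)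
    (h3 : r' ≠ 0) (h4 : (Fq g (X : ℂ[X]) 0).eval r' = 0) : Irreducible (Ry f g) := by
  refine irreducible_quartic (fun y h => ?_) fun a h => ?_
  · have := congrArg (MvPolynomial.aeval (![1, 0, X] : Fin 3 → ℂ[X])) h
    simp only [map_add, map_mul, map_pow, aeval_poly3, MvPolynomial.aeval_X, map_ofNat, map_zero]
      at this
    refine not_sq_of_simple (y := MvPolynomial.aeval (![1, 0, X] : Fin 3 → ℂ[X]) y) h0 h1
      one_ne_zero (pow_eq_zero_iff two_ne_zero |>.mp ?_)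
    simp at this ⊢
    refine pow_eq_zero_iff two_ne_zero |>.mp ?_
    linear_combination this
  · have := congrArg (MvPolynomial.aeval (![1, X, C X] : Fin 3 → ℂ[X][X])) h
    simp only [map_add, map_sub, map_mul, map_pow, aeval_poly3, MvPolynomial.aeval_X, map_ofNat,
      map_zero] at this
    have e : ∀ f : EvenQuartic, (Fq f (C X : ℂ[X][X]) (X ^ 2)).eval 0 = Fq f X 0 := fun f => by
      have := map_Fq ((aeval 0 : ℂ[X][X] →ₐ[ℂ[X]] ℂ[X]).restrictScalars ℂ) f (C X) (X ^ 2)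
      rw [map_pow] at this
      simpa using this
    refine resolvent_ne (F := Fq f (C X) (X ^ 2)) (G := Fq g (C X) (X ^ 2))
      (A := MvPolynomial.aeval (![1, X, C X] : Fin 3 → ℂ[X][X]) a)
      (by rw [e]; exact h0) (by rw [e]; exact h1) (by rw [e]; exact h2) h3 (by rw [e]; exact h4) ?_
    simp only [Matrix.cons_val_zero, Matrix.cons_val_one, Matrix.cons_val] at this
    linear_combination this

open MvPolynomial in
lemma normal_form (f g : EvenQuartic) (P : MvPolynomial (Fin 5) ℂ) :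
    ∃ α β γ δ : MvPolynomial (Fin 3) ℂ, P - (aeval ![.X 0, .X 1, .X 2] α
      + aeval ![.X 0, .X 1, .X 2] β * .X 3 + aeval ![.X 0, .X 1, .X 2] γ * .X 4
      + aeval ![.X 0, .X 1, .X 2] δ * (.X 3 * .X 4)) ∈ Ideal.span {q₀ f, q₂ g} := by
  set I := Ideal.span {q₀ f, q₂ g}
  set ι : MvPolynomial (Fin 3) ℂ →ₐ[ℂ] MvPolynomial (Fin 5) ℂ := aeval ![.X 0, .X 1, .X 2] with hι
  have hp : ∀ e : EvenQuartic, ι e.poly3 = e.poly := fun e => by
    simp [hι, EvenQuartic.poly3, EvenQuartic.poly]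
  have x0 : ι (.X 0) = .X 0 := by simp [hι]
  have x1 : ι (.X 1) = .X 1 := by simp [hι]
  have x2 : ι (.X 2) = .X 2 := by simp [hι]
  have m0 : q₀ f ∈ I := Ideal.subset_span (by simp)
  have m2 : q₂ g ∈ I := Ideal.subset_span (by simp)
  induction P using MvPolynomial.induction_on with
  | C c => exact ⟨.C c, 0, 0, 0, by simp [hι]⟩
  | add p q hp hq =>
    obtain ⟨α, β, γ, δ, h⟩ := hp
    obtain ⟨α', β', γ', δ', h'⟩ := hq
    refine ⟨α + α', β + β', γ + γ', δ + δ', ?_⟩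
    convert I.add_mem h h' using 1
    simp only [map_add]; ring
  | mul_X p i ih =>
    obtain ⟨α, β, γ, δ, h⟩ := ih
    have key : ∀ j : Fin 3, ι (.X j) = .X i → ∃ α β γ δ : MvPolynomial (Fin 3) ℂ,
        p * .X i - (ι α + ι β * .X 3 + ι γ * .X 4 + ι δ * (.X 3 * .X 4)) ∈ I := by
      intro j hj
      refine ⟨α * .X j, β * .X j, γ * .X j, δ * .X j, ?_⟩
      convert I.mul_mem_right (.X i) h using 1
      simp only [map_mul, hj]; ring
    fin_cases i
    · exact key 0 x0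
    · exact key 1 x1
    · exact key 2 x2
    · refine ⟨-β * f.poly3 + δ * .X 0 * .X 1 * g.poly3, α + δ * .X 0 * .X 1 ^ 2 * .X 2,
        -β * .X 0 * .X 1 - δ * f.poly3, γ, ?_⟩
      convert I.add_mem (I.mul_mem_right (.X 3) h) (I.add_mem
        (I.mul_mem_left (ι β + ι δ * .X 4) m0) (I.mul_mem_left (-ι δ * .X 0 * .X 1) m2)) using 1
      simp only [map_add, map_sub, map_mul, map_neg, map_pow, hp, x0, x1, x2, q₀, q₂]
      change p * .X 3 - _ = _
      ring
    · refine ⟨-γ * g.poly3 + δ * .X 1 * .X 2 * f.poly3, -γ * .X 1 * .X 2 - δ * g.poly3,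
        α + δ * .X 0 * .X 1 ^ 2 * .X 2, β, ?_⟩
      convert I.add_mem (I.mul_mem_right (.X 4) h) (I.add_mem
        (I.mul_mem_left (ι γ + ι δ * .X 3) m2) (I.mul_mem_left (-ι δ * .X 1 * .X 2) m0)) using 1
      simp only [map_add, map_sub, map_mul, map_neg, map_pow, hp, x0, x1, x2, q₀, q₂]
      change p * .X 4 - _ = _
      ring

theorem isPrime_of_irreducible (f g : EvenQuartic) (h : Irreducible (Ry f g)) :
    (Ideal.span {q₀ f, q₂ g}).IsPrime := by
  have hd : (Ry f g).natDegree = 4 := by unfold Ry; compute_degree!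
  have : IsDomain (AdjoinRoot (Ry f g)) := AdjoinRoot.isDomain_of_prime h.prime
  let L := FractionRing (AdjoinRoot (Ry f g))
  let κ : (MvPolynomial (Fin 3) ℂ)[X] →ₐ[ℂ] L := (IsScalarTower.toAlgHom ℂ _ L).comp
    ((AdjoinRoot.mkₐ (Ry f g)).restrictScalars ℂ)
  have hκ : ∀ p, κ p = 0 → p.natDegree < 4 → p = 0 := fun p hp hlt =>
    eq_zero_of_dvd_of_natDegree_lt (AdjoinRoot.mk_eq_zero.mp
      ((map_eq_zero_iff _ (IsFractionRing.injective _ L)).mp hp)) (hd ▸ hlt)
  have hR : κ (Ry f g) = 0 := by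
    change algebraMap (AdjoinRoot (Ry f g)) L (AdjoinRoot.mk (Ry f g) (Ry f g)) = 0
    rw [AdjoinRoot.mk_self, map_zero]
  have hx : κ (C (MvPolynomial.X 0 * MvPolynomial.X 1)) ≠ 0 := fun h0 => by
    have := hκ _ h0 (by rw [natDegree_C]; norm_num)
    simp at this
  let φ : MvPolynomial (Fin 5) ℂ →ₐ[ℂ] L := MvPolynomial.aeval ![κ (C (.X 0)), κ (C (.X 1)),
    κ (C (.X 2)), κ X, -(κ X ^ 2 + κ (C f.poly3)) / κ (C (.X 0 * .X 1))]
  have hι : ∀ b : MvPolynomial (Fin 3) ℂ, φ (MvPolynomial.aeval ![.X 0, .X 1, .X 2] b) = κ (C b) :=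
    fun b => DFunLike.congr_fun (show φ.comp (MvPolynomial.aeval ![.X 0, .X 1, .X 2])
      = κ.comp CAlgHom from by ext i; fin_cases i <;> simp [φ]) b
  have hp : ∀ e : EvenQuartic, φ e.poly = κ (C e.poly3) := fun e => by
    rw [← hι]; simp [EvenQuartic.poly3, EvenQuartic.poly]
  have y0 : φ (.X 0) = κ (C (.X 0)) := by simp [φ]
  have y1 : φ (.X 1) = κ (C (.X 1)) := by simp [φ]
  have y2 : φ (.X 2) = κ (C (.X 2)) := by simp [φ]
  have y3 : φ (.X 3) = κ X := by simp [φ]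
  have y4 : φ (.X 4) * (κ (C (.X 0)) * κ (C (.X 1))) = -(κ X ^ 2 + κ (C f.poly3)) := by
    rw [← map_mul, ← map_mul, ← eq_div_iff hx]; simp [φ]
  rw [map_mul, map_mul] at hx
  have hle : Ideal.span {q₀ f, q₂ g} ≤ RingHom.ker φ := by
    rw [Ideal.span_le]
    rintro q (rfl | rfl)
    · change φ _ = 0
      simp only [q₀, map_add, map_mul, map_pow, hp, y0, y1, y3]
      linear_combination y4
    · change φ _ = 0
      simp only [Ry, map_add, map_mul, map_pow, map_ofNat] at hR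
      simp only [q₂, map_add, map_mul, map_pow, hp, y1, y2, y3]
      apply mul_left_cancel₀ (pow_ne_zero 2 hx)
      linear_combination hR + (φ (.X 4) * (κ (C (.X 0)) * κ (C (.X 1)))
        - (κ X ^ 2 + κ (C f.poly3))) * y4
  have hge : RingHom.ker φ ≤ Ideal.span {q₀ f, q₂ g} := by
    intro P hP
    obtain ⟨α, β, γ, δ, hm⟩ := normal_form f g P
    have h1 : φ _ = 0 := hle hm
    rw [map_sub, (RingHom.mem_ker).mp hP] at h1
    simp only [map_add, map_mul, hι, y3] at h1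
    have h2 := hκ (C (.X 0 * .X 1 * α - γ * f.poly3) + C (.X 0 * .X 1 * β - δ * f.poly3) * X
        + C (-γ) * X ^ 2 + C (-δ) * X ^ 3) (by
      simp only [map_add, map_sub, map_mul, map_pow, map_neg]
      linear_combination (-(κ (C (.X 0)) * κ (C (.X 1)))) * h1 - (κ (C γ) + κ (C δ) * κ X) * y4)
      (by compute_degree!)
    have c0 := congrArg (coeff · 0) h2
    have c1 := congrArg (coeff · 1) h2
    have c2 := congrArg (coeff · 2) h2
    have c3 := congrArg (coeff · 3) h2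
    simp only [coeff_add, coeff_C_mul, coeff_X_pow, coeff_X, coeff_C, coeff_zero] at c0 c1 c2 c3
    norm_num at c0 c1 c2 c3
    subst c2 c3
    simp at c0 c1
    subst c0 c1
    simpa using hm
  rw [le_antisymm hle hge]
  exact RingHom.ker_isPrime _

end

end Pool.Agent.P.MP_7ebcb6_ag
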