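import Pool.Agent.P.MP_7ebcb6_ag.Alg

/-! A tangent line through a generic point is not a bitangent. -/

namespace Pool.Agent.P.MP_7ebcb6_ag

lemma sq_cov1 {R : Type*} [CommRing R] (G0 G1 G2 ε ρ : R) {e0 e1 e2 e3 e4 A0 A1 A2 A3 A4 : R}
    (h0 : e0 = G0 ^ 2) (h1 : e1 = 2 * G0 * G1) (h2 : e2 = G1 ^ 2 + 2 * G0 * G2)
    (h3 : e3 = 2 * G1 * G2) (h4 : e4 = G2 ^ 2) (g0 : A0 = e4 * ε ^ 4)
    (g1 : A1 = e3 * ε ^ 3 - 4 * e4 * ε ^ 3 * ρ)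
    (g2 : A2 = e2 * ε ^ 2 - 3 * e3 * ε ^ 2 * ρ + 6 * e4 * ε ^ 2 * ρ ^ 2)
    (g3 : A3 = e1 * ε - 2 * e2 * ε * ρ + 3 * e3 * ε * ρ ^ 2 - 4 * e4 * ε * ρ ^ 3)
    (g4 : A4 = e0 - e1 * ρ + e2 * ρ ^ 2 - e3 * ρ ^ 3 + e4 * ρ ^ 4) :
    A1 ^ 3 - 4 * A0 * A1 * A2 + 8 * A0 ^ 2 * A3 = 0 ∧
      (A3 ^ 2 - 4 * A2 * A4) ^ 2 - 64 * A0 * A4 ^ 3 = 0 := by
  have k0 : A0 = (G2 * ε ^ 2) ^ 2 := by rw [g0, h4]; ring
  have k1 : A1 = 2 * (G2 * ε ^ 2) * (G1 * ε - 2 * G2 * ε * ρ) := by rw [g1, h3, h4]; ring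
  have k2 : A2 = (G1 * ε - 2 * G2 * ε * ρ) ^ 2 + 2 * (G2 * ε ^ 2) * (G0 - G1 * ρ + G2 * ρ ^ 2) := by
    rw [g2, h2, h3, h4]; ring
  have k3 : A3 = 2 * (G1 * ε - 2 * G2 * ε * ρ) * (G0 - G1 * ρ + G2 * ρ ^ 2) := by
    rw [g3, h1, h2, h3, h4]; ring
  have k4 : A4 = (G0 - G1 * ρ + G2 * ρ ^ 2) ^ 2 := by rw [g4, h0, h1, h2, h3, h4]; ring
  rw [k0, k1, k2, k3, k4]
  generalize G2 * ε ^ 2 = H0
  generalize G1 * ε - 2 * G2 * ε * ρ = H1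
  generalize G0 - G1 * ρ + G2 * ρ ^ 2 = H2
  constructor <;> ring

lemma not_square (x a1 a2 a3 a4 B0 B1 B2 B3 B4 s : ℂ) (hδ : a1 ^ 2 - 12 * x * B0 ≠ 0)
    (n0 n1 G0 G1 G2 : Om) (hq : NonConst (n0 + n1 * algebraMap ℂ Om s))
    (h0 : le0 (algebraMap ℂ Om x) (algebraMap ℂ Om a1) (algebraMap ℂ Om B0) n0 = G0 ^ 2)
    (h1 : le1 (algebraMap ℂ Om x) (algebraMap ℂ Om a1) (algebraMap ℂ Om a2) (algebraMap ℂ Om B1)
      n0 n1 = 2 * G0 * G1)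
    (h2 : le2 (algebraMap ℂ Om x) (algebraMap ℂ Om a2) (algebraMap ℂ Om a3) (algebraMap ℂ Om B2)
      n0 n1 = G1 ^ 2 + 2 * G0 * G2)
    (h3 : le3 (algebraMap ℂ Om a3) (algebraMap ℂ Om a4) (algebraMap ℂ Om B3) n0 n1 = 2 * G1 * G2)
    (h4 : le4 (algebraMap ℂ Om a4) (algebraMap ℂ Om B4) n1 = G2 ^ 2) : False := by
  obtain ⟨sp, hsp⟩ := hq.exists_pole
  have cx := Tends.const (v := sp.v) x
  have c1 := Tends.const (v := sp.v) a1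
  have c2 := Tends.const (v := sp.v) a2
  have c3 := Tends.const (v := sp.v) a3
  have c4 := Tends.const (v := sp.v) a4
  have d0 := Tends.const (v := sp.v) B0
  have d1 := Tends.const (v := sp.v) B1
  have d2 := Tends.const (v := sp.v) B2
  have d3 := Tends.const (v := sp.v) B3
  have d4 := Tends.const (v := sp.v) B4
  have hs := (Tends.const (v := sp.v) s).le_one
  generalize algebraMap ℂ Om x = X at *
  generalize algebraMap ℂ Om a1 = b1 at *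
  generalize algebraMap ℂ Om a2 = b2 at *
  generalize algebraMap ℂ Om a3 = b3 at *
  generalize algebraMap ℂ Om a4 = b4 at *
  generalize algebraMap ℂ Om B0 = C0 at *
  generalize algebraMap ℂ Om B1 = C1 at *
  generalize algebraMap ℂ Om B2 = C2 at *
  generalize algebraMap ℂ Om B3 = C3 at *
  generalize algebraMap ℂ Om B4 = C4 at *
  have hn1s : sp.v (n1 * algebraMap ℂ Om s) ≤ sp.v n1 := by
    rw [map_mul]; exact mul_le_of_le_one_right' hs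
  rcases le_or_gt (sp.v n0) (sp.v n1) with hle | hlt
  · have hbig : 1 < sp.v n1 := hsp.trans_le (sp.v.map_add_le hle hn1s)
    have hne : n1 ≠ 0 := by rintro rfl; simp at hbig
    have hε : Tends sp.v n1⁻¹ 0 := Tends.zero_iff.mpr ((Valuation.one_lt_val_iff _ hne).mp hbig)
    obtain ⟨r, hr⟩ := sp.exists_tends (a := n0 / n1) (by
      rw [map_div₀]; exact div_le_one_of_le₀ hle zero_le)
    obtain ⟨ρ, rfl⟩ : ∃ ρ, n0 = ρ * n1 := ⟨n0 / n1, by field_simp⟩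
    rw [mul_div_cancel_right₀ _ hne] at hr
    obtain ⟨ε, rfl⟩ : ∃ ε, n1 = ε⁻¹ := ⟨n1⁻¹, by simp⟩
    rw [inv_inv] at hε
    have hε0 : ε ≠ 0 := by simpa using hne
    obtain ⟨k1, k2⟩ := sq_cov1 G0 G1 G2 ε ρ h0 h1 h2 h3 h4
      (A0 := ε * (1 + b4 * ε ^ 2 + C4 * ε ^ 3))
      (A1 := -ρ + ε * (b3 * ε - 3 * b4 * ρ * ε + C3 * ε ^ 2 - 4 * C4 * ρ * ε ^ 2))
      (A2 := 3 * X + ε * (b2 - 2 * b3 * ρ + 3 * b4 * ρ ^ 2 + C2 * ε - 3 * C3 * ρ * ε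
        + 6 * C4 * ρ ^ 2 * ε))
      (A3 := b1 - b2 * ρ + b3 * ρ ^ 2 - b4 * ρ ^ 3
        + ε * (C1 - 2 * C2 * ρ + 3 * C3 * ρ ^ 2 - 4 * C4 * ρ ^ 3))
      (A4 := C0 - C1 * ρ + C2 * ρ ^ 2 - C3 * ρ ^ 3 + C4 * ρ ^ 4)
      (by unfold le4; field_simp) (by unfold le3 le4; field_simp; ring)
      (by unfold le2 le3 le4; field_simp; ring) (by unfold le1 le2 le3 le4; field_simp; ring)
      (by unfold le0 le1 le2 le3 le4; field_simp; ring)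
    have t0 : Tends sp.v (ε * (1 + b4 * ε ^ 2 + C4 * ε ^ 3)) (0 * (1 + a4 * 0 ^ 2 + B4 * 0 ^ 3)) := by
      apply_rules (transparency := .reducible) [Tends.add, Tends.mul, Tends.pow, Tends.one]
    have t1 : Tends sp.v (-ρ + ε * (b3 * ε - 3 * b4 * ρ * ε + C3 * ε ^ 2 - 4 * C4 * ρ * ε ^ 2))
        (-r + 0 * (a3 * 0 - 3 * a4 * r * 0 + B3 * 0 ^ 2 - 4 * B4 * r * 0 ^ 2)) := by
      apply_rules (transparency := .reducible) [Tends.add, Tends.sub, Tends.neg, Tends.mul, Tends.pow, Tends.ofNat]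
    have t2 : Tends sp.v (3 * X + ε * (b2 - 2 * b3 * ρ + 3 * b4 * ρ ^ 2 + C2 * ε - 3 * C3 * ρ * ε
        + 6 * C4 * ρ ^ 2 * ε)) (3 * x + 0 * (a2 - 2 * a3 * r + 3 * a4 * r ^ 2 + B2 * 0
        - 3 * B3 * r * 0 + 6 * B4 * r ^ 2 * 0)) := by
      apply_rules (transparency := .reducible) [Tends.add, Tends.sub, Tends.neg, Tends.mul, Tends.pow, Tends.ofNat]
    have t3 : Tends sp.v (b1 - b2 * ρ + b3 * ρ ^ 2 - b4 * ρ ^ 3
        + ε * (C1 - 2 * C2 * ρ + 3 * C3 * ρ ^ 2 - 4 * C4 * ρ ^ 3))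
        (a1 - a2 * r + a3 * r ^ 2 - a4 * r ^ 3
        + 0 * (B1 - 2 * B2 * r + 3 * B3 * r ^ 2 - 4 * B4 * r ^ 3)) := by
      apply_rules (transparency := .reducible) [Tends.add, Tends.sub, Tends.neg, Tends.mul, Tends.pow, Tends.ofNat]
    have t4 : Tends sp.v (C0 - C1 * ρ + C2 * ρ ^ 2 - C3 * ρ ^ 3 + C4 * ρ ^ 4)
        (B0 - B1 * r + B2 * r ^ 2 - B3 * r ^ 3 + B4 * r ^ 4) := by
      apply_rules (transparency := .reducible) [Tends.add, Tends.sub, Tends.neg, Tends.mul, Tends.pow, Tends.ofNat]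
    have e1 := (((t1.pow 3).sub ((((Tends.ofNat 4).mul t0).mul t1).mul t2)).add
      (((Tends.ofNat 8).mul (t0.pow 2)).mul t3)).eq_zero k1
    have e2 := ((((t3.pow 2).sub (((Tends.ofNat 4).mul t2).mul t4)).pow 2).sub
      (((Tends.ofNat 64).mul t0).mul (t4.pow 3))).eq_zero k2
    have hr0 : r = 0 := by
      have : r ^ 3 = 0 := by linear_combination -e1
      exact pow_eq_zero_iff three_ne_zero |>.mp this
    subst hr0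
    apply hδ
    have : (a1 ^ 2 - 12 * x * B0) ^ 2 = 0 := by linear_combination e2
    exact pow_eq_zero_iff two_ne_zero |>.mp this
  · have hbig : 1 < sp.v n0 := hsp.trans_le (sp.v.map_add_le le_rfl (hn1s.trans hlt.le))
    have hne : n0 ≠ 0 := by rintro rfl; simp at hbig
    have hε : Tends sp.v n0⁻¹ 0 := Tends.zero_iff.mpr ((Valuation.one_lt_val_iff _ hne).mp hbig)
    obtain ⟨r, hr⟩ := sp.exists_tends (a := n1 / n0) (by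
      rw [map_div₀]; exact div_le_one_of_le₀ hlt.le zero_le)
    obtain ⟨ρ, rfl⟩ : ∃ ρ, n1 = ρ * n0 := ⟨n1 / n0, by field_simp⟩
    rw [mul_div_cancel_right₀ _ hne] at hr
    obtain ⟨ε, rfl⟩ : ∃ ε, n0 = ε⁻¹ := ⟨n0⁻¹, by simp⟩
    rw [inv_inv] at hε
    have hε0 : ε ≠ 0 := by simpa using hne
    obtain ⟨k1, -⟩ := sq_cov1 G2 G1 G0 ε ρ h4 (h3.trans (by ring)) (h2.trans (by ring))
      (h1.trans (by ring)) h0
      (A0 := ε * (3 * X * ε + b1 * ε ^ 2 + C0 * ε ^ 3))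
      (A1 := 1 + ε * (-(6 * X * ρ) - 3 * b1 * ρ * ε + b2 * ε + C1 * ε ^ 2 - 4 * C0 * ρ * ε ^ 2))
      (A2 := 3 * X * ρ ^ 2 + ε * (b3 - 2 * b2 * ρ + 3 * b1 * ρ ^ 2 + C2 * ε - 3 * C1 * ρ * ε
        + 6 * C0 * ρ ^ 2 * ε))
      (A3 := b4 - b3 * ρ + b2 * ρ ^ 2 - b1 * ρ ^ 3
        + ε * (C3 - 2 * C2 * ρ + 3 * C1 * ρ ^ 2 - 4 * C0 * ρ ^ 3))
      (by unfold le0; field_simp) (by unfold le0 le1; field_simp; ring)
      (by unfold le0 le1 le2; field_simp; ring) (by unfold le0 le1 le2 le3; field_simp; ring) rfl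
    have t0 : Tends sp.v (ε * (3 * X * ε + b1 * ε ^ 2 + C0 * ε ^ 3))
        (0 * (3 * x * 0 + a1 * 0 ^ 2 + B0 * 0 ^ 3)) := by
      apply_rules (transparency := .reducible) [Tends.add, Tends.mul, Tends.pow, Tends.ofNat]
    have t1 : Tends sp.v
        (1 + ε * (-(6 * X * ρ) - 3 * b1 * ρ * ε + b2 * ε + C1 * ε ^ 2 - 4 * C0 * ρ * ε ^ 2))
        (1 + 0 * (-(6 * x * r) - 3 * a1 * r * 0 + a2 * 0 + B1 * 0 ^ 2 - 4 * B0 * r * 0 ^ 2)) := by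
      apply_rules (transparency := .reducible) [Tends.add, Tends.sub, Tends.neg, Tends.mul, Tends.pow, Tends.ofNat, Tends.one]
    have t2 : Tends sp.v (3 * X * ρ ^ 2 + ε * (b3 - 2 * b2 * ρ + 3 * b1 * ρ ^ 2 + C2 * ε
        - 3 * C1 * ρ * ε + 6 * C0 * ρ ^ 2 * ε)) (3 * x * r ^ 2 + 0 * (a3 - 2 * a2 * r
        + 3 * a1 * r ^ 2 + B2 * 0 - 3 * B1 * r * 0 + 6 * B0 * r ^ 2 * 0)) := by
      apply_rules (transparency := .reducible) [Tends.add, Tends.sub, Tends.neg, Tends.mul, Tends.pow, Tends.ofNat]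
    have t3 : Tends sp.v (b4 - b3 * ρ + b2 * ρ ^ 2 - b1 * ρ ^ 3
        + ε * (C3 - 2 * C2 * ρ + 3 * C1 * ρ ^ 2 - 4 * C0 * ρ ^ 3))
        (a4 - a3 * r + a2 * r ^ 2 - a1 * r ^ 3
        + 0 * (B3 - 2 * B2 * r + 3 * B1 * r ^ 2 - 4 * B0 * r ^ 3)) := by
      apply_rules (transparency := .reducible) [Tends.add, Tends.sub, Tends.neg, Tends.mul, Tends.pow, Tends.ofNat]
    have e1 := (((t1.pow 3).sub ((((Tends.ofNat 4).mul t0).mul t1).mul t2)).add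
      (((Tends.ofNat 8).mul (t0.pow 2)).mul t3)).eq_zero k1
    simp at e1

/-- Through a generic point of a smooth fibre there is a rational curve `υ² = τ²ℓ²γ`. -/
lemma exists_conic (x a1 a2 a3 a4 B0 B1 B2 B3 B4 s : ℂ) (hδ : a1 ^ 2 - 12 * x * B0 ≠ 0)
    (h : 4 * wa x a1 a2 a3 a4 s ^ 3 + 27 * wb x a1 a2 a3 a4 B0 B1 B2 B3 B4 s ^ 2 ≠ 0)
    (q : Om) (hq : NonConst q) : ∃ n0 n1 α β γ0 γ1 γ2 : Om, n0 + n1 * algebraMap ℂ Om s = q ∧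
      le0 (algebraMap ℂ Om x) (algebraMap ℂ Om a1) (algebraMap ℂ Om B0) n0 = β ^ 2 * γ0 ∧
      le1 (algebraMap ℂ Om x) (algebraMap ℂ Om a1) (algebraMap ℂ Om a2) (algebraMap ℂ Om B1)
        n0 n1 = 2 * α * β * γ0 + β ^ 2 * γ1 ∧
      le2 (algebraMap ℂ Om x) (algebraMap ℂ Om a2) (algebraMap ℂ Om a3) (algebraMap ℂ Om B2)
        n0 n1 = α ^ 2 * γ0 + 2 * α * β * γ1 + β ^ 2 * γ2 ∧
      le3 (algebraMap ℂ Om a3) (algebraMap ℂ Om a4) (algebraMap ℂ Om B3) n0 n1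
        = α ^ 2 * γ1 + 2 * α * β * γ2 ∧
      le4 (algebraMap ℂ Om a4) (algebraMap ℂ Om B4) n1 = α ^ 2 * γ2 ∧
      γ1 ^ 2 - 4 * γ0 * γ2 ≠ 0 := by
  obtain ⟨μ, hμ⟩ := exists_tangent_line (algebraMap ℂ Om x) (algebraMap ℂ Om a1)
    (algebraMap ℂ Om a2) (algebraMap ℂ Om a3) (algebraMap ℂ Om a4) (algebraMap ℂ Om B0)
    (algebraMap ℂ Om B1) (algebraMap ℂ Om B2) (algebraMap ℂ Om B3) (algebraMap ℂ Om B4)
    (algebraMap ℂ Om s) q (by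
      intro h0
      apply h
      apply (algebraMap ℂ Om).injective
      rw [map_zero, ← h0]
      simp only [wa, wb, map_add, map_sub, map_mul, map_pow, map_neg, map_ofNat])
  obtain ⟨α, β, γ0, γ1, γ2, h0, h1, h2, h3, h4⟩ := exists_double_factor _ _ _ _ _ hμ
  refine ⟨_, μ, α, β, γ0, γ1, γ2, by ring, h0, h1, h2, h3, h4, fun hd => ?_⟩
  obtain ⟨u, w, rfl, rfl, rfl⟩ := exists_sq_of_disc hd
  refine not_square x a1 a2 a3 a4 B0 B1 B2 B3 B4 s hδ _ μ (β * u) (α * u + β * w) (α * w)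
    (by simpa using hq) (h0.trans (by ring)) (h1.trans (by ring)) (h2.trans (by ring))
    (h3.trans (by ring)) (h4.trans (by ring))

end Pool.Agent.P.MP_7ebcb6_ag
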