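import Pool.Agent.P.MP_7ebcb6_ag.FF2

/-! Reduction of elements modulo a valuation that is trivial on the constants. -/

open scoped WithZero IntermediateField Polynomial

set_option linter.unusedSectionVars false

namespace Pool.Agent.P.MP_7ebcb6_ag

variable {L Γ : Type*} [Field L] [Algebra ℂ L] [LinearOrderedCommGroupWithZero Γ]

/-- `a` takes the value `c` at the valuation `v`. -/
def Tends (v : Valuation L Γ) (a : L) (c : ℂ) : Prop := v (a - algebraMap ℂ L c) < 1

namespace Tends

variable {v : Valuation L Γ} [hv : v.IsTrivialOn ℂ] {a b : L} {c d : ℂ}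

lemma const (c : ℂ) : Tends v (algebraMap ℂ L c) c := by simp [Tends]

lemma zero : Tends v 0 0 := by simp [Tends]

lemma one : Tends v 1 1 := by simp [Tends]

lemma ofNat (n : ℕ) [n.AtLeastTwo] : Tends v (OfNat.ofNat n) (OfNat.ofNat n) := by
  simp [Tends, map_ofNat]

lemma le_one (h : Tends v a c) : v a ≤ 1 := by
  have : a = (a - algebraMap ℂ L c) + algebraMap ℂ L c := by ring
  rw [this]
  exact v.map_add_le h.le (Valuation.IsTrivialOn.valuation_algebraMap_le_one v c)

lemma eq_one (h : Tends v a c) (hc : c ≠ 0) : v a = 1 := by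
  have : a = algebraMap ℂ L c + (a - algebraMap ℂ L c) := by ring
  have h1 : v (algebraMap ℂ L c) = 1 := hv.eq_one c hc
  rw [this, v.map_add_eq_of_lt_left (by rw [h1]; exact h), h1]

lemma ne_zero (h : Tends v a c) (hc : c ≠ 0) : a ≠ 0 := by
  rintro rfl
  have := h.eq_one hc
  simp at this

lemma zero_iff : Tends v a 0 ↔ v a < 1 := by simp [Tends]

lemma add (h : Tends v a c) (h' : Tends v b d) : Tends v (a + b) (c + d) := by
  have : a + b - algebraMap ℂ L (c + d) = (a - algebraMap ℂ L c) + (b - algebraMap ℂ L d) := by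
    rw [map_add]; ring
  rw [Tends, this]; exact v.map_add_lt h h'

lemma neg (h : Tends v a c) : Tends v (-a) (-c) := by
  have : -a - algebraMap ℂ L (-c) = -(a - algebraMap ℂ L c) := by rw [map_neg]; ring
  rw [Tends, this, v.map_neg]; exact h

lemma sub (h : Tends v a c) (h' : Tends v b d) : Tends v (a - b) (c - d) := by
  rw [sub_eq_add_neg, sub_eq_add_neg]; exact h.add h'.neg

lemma mul (h : Tends v a c) (h' : Tends v b d) : Tends v (a * b) (c * d) := by
  have : a * b - algebraMap ℂ L (c * d) =
      a * (b - algebraMap ℂ L d) + (a - algebraMap ℂ L c) * algebraMap ℂ L d := by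
    rw [map_mul]; ring
  rw [Tends, this]
  refine v.map_add_lt ?_ ?_ <;> rw [map_mul]
  · exact mul_lt_one_of_nonneg_of_lt_one_right h.le_one zero_le h'
  · exact mul_lt_one_of_nonneg_of_lt_one_left zero_le h
      (Valuation.IsTrivialOn.valuation_algebraMap_le_one v d)

lemma pow (h : Tends v a c) (n : ℕ) : Tends v (a ^ n) (c ^ n) := by
  induction n with
  | zero => simpa using one
  | succ n ih => rw [pow_succ, pow_succ]; exact ih.mul h

lemma unique (h : Tends v a c) (h' : Tends v a d) : c = d := by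
  by_contra hne
  have := (h.sub h').ne_zero (sub_ne_zero.mpr hne)
  simp at this

lemma inv (h : Tends v a c) (hc : c ≠ 0) : Tends v a⁻¹ c⁻¹ := by
  have ha := h.ne_zero hc
  have hc' : algebraMap ℂ L c ≠ 0 := by simpa using hc
  have : a⁻¹ - algebraMap ℂ L c⁻¹ = -(a - algebraMap ℂ L c) * (a⁻¹ * (algebraMap ℂ L c)⁻¹) := by
    rw [map_inv₀]; field_simp; ring
  rw [Tends, this, map_mul, map_mul, map_inv₀, map_inv₀, h.eq_one hc, hv.eq_one c hc, v.map_neg]
  simpa [Tends] using h

lemma div (h : Tends v a c) (h' : Tends v b d) (hd : d ≠ 0) : Tends v (a / b) (c / d) := by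
  rw [div_eq_mul_inv, div_eq_mul_inv]; exact h.mul (h'.inv hd)

lemma eq_zero (h : Tends v a c) (ha : a = 0) : c = 0 := by
  subst ha; exact h.unique zero

lemma eq_of_eq (h : Tends v a c) (h' : Tends v b d) (hab : a = b) : c = d := by
  subst hab; exact h.unique h'

lemma of_eq_right (h : Tends v a c) (hcd : c = d) : Tends v a d := hcd ▸ h

lemma of_eq_left (h : Tends v a c) (hab : a = b) : Tends v b c := hab ▸ h

lemma sum {ι : Type*} (s : Finset ι) {f : ι → L} {g : ι → ℂ} (h : ∀ i ∈ s, Tends v (f i) (g i)) :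
    Tends v (∑ i ∈ s, f i) (∑ i ∈ s, g i) := by
  classical
  induction s using Finset.induction_on with
  | empty => simpa using zero
  | insert i s hi ih =>
    rw [Finset.sum_insert hi, Finset.sum_insert hi]
    exact (h i (Finset.mem_insert_self _ _)).add
      (ih fun j hj => h j (Finset.mem_insert_of_mem hj))

lemma aeval (h : Tends v a c) (p : ℂ[X]) : Tends v (Polynomial.aeval a p) (p.eval c) := by
  induction p using Polynomial.induction_on with
  | C r => simpa using const r
  | add p q hp hq => simpa using hp.add hq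
  | monomial n r hr =>
    simp only [map_mul, Polynomial.aeval_C, map_pow, Polynomial.aeval_X, Polynomial.eval_mul,
      Polynomial.eval_C, Polynomial.eval_pow, Polynomial.eval_X]
    exact (const r).mul (h.pow _)

lemma mv_aeval {σ : Type*} {x : σ → L} {y : σ → ℂ} (h : ∀ i, Tends v (x i) (y i))
    (p : MvPolynomial σ ℂ) : Tends v (MvPolynomial.aeval x p) (MvPolynomial.eval y p) := by
  induction p using MvPolynomial.induction_on with
  | C r => simpa using const r
  | add p q hp hq => simpa using hp.add hq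
  | mul_X p i hp => simpa using hp.mul (h i)

end Tends

/-- A root of a monic polynomial of degree two with integral coefficients is integral. -/
lemma le_one_of_quadratic (v : Valuation L Γ) {r p q : L} (hp : v p ≤ 1) (hq : v q ≤ 1)
    (h : r ^ 2 + p * r + q = 0) : v r ≤ 1 := by
  by_contra hr
  push Not at hr
  have h0 : 0 < v r := zero_lt_one.trans hr
  have h1 : v (p * r + q) < v (r ^ 2) := by
    rw [map_pow, pow_two]
    refine v.map_add_lt ?_ ?_
    · rw [map_mul]; exact mul_lt_mul_of_pos_right (hp.trans_lt hr) h0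
    · exact hq.trans_lt (one_lt_mul'' hr hr)
  have h2 : r ^ 2 = -(p * r + q) := by linear_combination h
  rw [h2, v.map_neg] at h1
  exact lt_irrefl _ h1

/-- A root of a monic polynomial of degree at most four with integral coefficients is integral. -/
lemma le_one_of_quartic (v : Valuation L Γ) {r p3 p2 p1 p0 : L} (h3 : v p3 ≤ 1) (h2 : v p2 ≤ 1)
    (h1 : v p1 ≤ 1) (h0 : v p0 ≤ 1)
    (h : r ^ 4 + p3 * r ^ 3 + p2 * r ^ 2 + p1 * r + p0 = 0) : v r ≤ 1 := by
  by_contra hr
  push Not at hr
  have hpos : 0 < v r := zero_lt_one.trans hr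
  have key : ∀ (p : L) (k : ℕ), v p ≤ 1 → k < 4 → v (p * r ^ k) < v (r ^ 4) := by
    intro p k hp hk
    rw [map_mul, map_pow, map_pow]
    calc v p * v r ^ k ≤ 1 * v r ^ k := by gcongr
      _ = v r ^ k := one_mul _
      _ < v r ^ 4 := pow_lt_pow_right₀ hr hk
  have h5 : v (p3 * r ^ 3 + p2 * r ^ 2 + p1 * r ^ 1 + p0 * r ^ 0) < v (r ^ 4) :=
    v.map_add_lt (v.map_add_lt (v.map_add_lt (key _ _ h3 (by norm_num)) (key _ _ h2 (by norm_num)))
      (key _ _ h1 (by norm_num))) (key _ _ h0 (by norm_num))
  have h6 : r ^ 4 = -(p3 * r ^ 3 + p2 * r ^ 2 + p1 * r ^ 1 + p0 * r ^ 0) := by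
    linear_combination h
  rw [h6, v.map_neg] at h5
  exact lt_irrefl _ h5

end Pool.Agent.P.MP_7ebcb6_ag
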